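import Pool.Agent.Run7.h412.NR.Defs

/-!
# MP_0272f9_lc: exact statements of the pieces
-/

set_option autoImplicit false

namespace Pool.Agent.Run7.h412.NR

open Pool.Agent.NPC

/-- MT (helper412): the expected number of times `A` is resampled is at most `(4/q)^(|A|/2)`. -/
def S_MT : Prop := ∀ (V Γ Ω : Type) [Fintype V] [LinearOrder V] [DecidableEq Γ] [Fintype Ω]
  (X : Ω → V → ℕ → Γ) (N q M : ℕ), 0 < q → M ≤ N → Indep X N q →
  ∀ E : Finset (List V), (∀ B ∈ E, B ≠ [] ∧ B.Nodup ∧ Even B.length) →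
  (∀ v, ∑ B ∈ E.filter (fun B => v ∈ B), ((4 : ℝ) / q) ^ (B.length / 2) ≤ 1) →
  ∀ sel : (V → Γ) → Option (List V), (∀ χ B, sel χ = some B → B ∈ E ∧ Viol χ B) →
  ∀ A ∈ E, (∑ ω, (((Finset.range M).filter (fun s => lg sel (X ω) s = some A)).card : ℝ)) ≤
    Fintype.card Ω * ((4 : ℝ) / q) ^ (A.length / 2)

/-- CNT: weights of the even paths of a graph of maximum degree `Δ`, when `q ≥ 16 Δ²`.
(There are at most `2 t Δ^(2t-1)` directed paths of order `2t` through a vertex, and at most
`n Δ^(2t-1)` in all.) -/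
def S_CNT : Prop := ∀ (n : ℕ) (G : SimpleGraph (Fin n)) [DecidableRel G.Adj] (q : ℕ), 0 < q →
  16 * (G.maxDegree * G.maxDegree) ≤ q →
  ∀ E : Finset (List (Fin n)), (∀ B ∈ E, EvenPath G B) →
  (∀ v, ∑ B ∈ E.filter (fun B => v ∈ B), ((4 : ℝ) / q) ^ (B.length / 2) ≤ 1) ∧
  (∀ T : ℕ, ∑ B ∈ E.filter (fun B => 2 * T < B.length), ((4 : ℝ) / q) ^ (B.length / 2) ≤
    (n : ℝ) / (3 * 4 ^ T))

/-- IND: the entries of the colour table are independent and uniform. -/
def S_IND : Prop := ∀ (n J : ℕ), J ≤ Jm n →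
  Indep (fun (r : Fin (P2 n) → Bool) (v : Fin n) (i : ℕ) =>
    blk (List.ofFn r) ((v.1 * N n + i) * Jm n) J) (N n) (2 ^ J)

/-- every set of at most `2 * T n` vertices is injectively labelled by some labelling -/
def Perfect (n : ℕ) (h : ℕ → Fin n → ℕ) : Prop :=
  ∀ B : List (Fin n), B.Nodup → B.length ≤ 2 * T n → ∃ ρ < Hc n, (B.map (h ρ)).Nodup

open Classical in
/-- LAB: the random labellings form a perfect family, except with probability `1/(3n)`.
(For a set of `s ≤ 2 T n` vertices a random labelling with `2 ^ lam n > 4 T n` labels is injective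
with probability at least `2 ^ (-s)`; the number of lists of length at most `2 T n` is at most
`(n + 1) ^ (2 T n)`.) -/
def S_LAB : Prop := ∀ (n P : ℕ), 1 ≤ n → P1 n ≤ P →
  (Finset.univ.filter (fun r : Fin P → Bool => ¬ Perfect n (fun ρ v =>
    blk (List.ofFn r) ((ρ * n + v.1) * lam n) (lam n)))).card * (3 * n) ≤ 2 ^ P

/-- DP1: soundness of the search. -/
def S_SOUND : Prop := ∀ (m : List (List Bool)) (c h : List ℕ), find m c h ≠ [] →
  ∃ p q : List ℕ, find m c h = p ++ q ∧ p ≠ [] ∧ p.length = q.length ∧ (p ++ q).Nodup ∧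
    (∀ x ∈ p ++ q, x < m.length) ∧ (p ++ q).IsChain (fun x y => adj m x y = true) ∧
    p.map (fun x => c.getD x 0) = q.map (fun x => c.getD x 0)

/-- DP2: completeness of the search. -/
def S_COMPL : Prop := ∀ (m : List (List Bool)) (c h : List ℕ) (p q : List ℕ),
  p ≠ [] → p.length = q.length → p.length ≤ T m.length → (∀ x ∈ p ++ q, x < m.length) →
  (∀ x ∈ p ++ q, h.getD x 0 < Lm m.length) → ((p ++ q).map (fun x => h.getD x 0)).Nodup →
  (p ++ q).IsChain (fun x y => adj m x y = true) →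
  p.map (fun x => c.getD x 0) = q.map (fun x => c.getD x 0) → find m c h ≠ []

/-- POLY: the algorithm runs in polynomial time. -/
def S_POLY : Prop := Poly (fun x : List (List Bool) × List Bool => alg x.1 x.2)

end Pool.Agent.Run7.h412.NR
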