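import Pool.Agent.Run7.h412.NR.MTc
import Pool.Agent.Run7.h412.NR.Iface

/-!
# Moser-Tardos: conclusion
-/

set_option autoImplicit false

namespace Pool.Agent.Run7.h412.NR

namespace MT

open Classical

variable {V : Type} [DecidableEq V] {E : Finset (List V)} {D : ℕ}

theorem cntF_eq {Γ : Type} (sel : (V → Γ) → Option (List V)) (X : V → ℕ → Γ) (s : ℕ) (v : V) :
    cntF sel X s v = cn (lg sel X) s v := by
  induction s with
  | zero => simp [cntF, cn]
  | succ s ih =>
    rw [cn_succ, ← ih]
    rfl

theorem cn_mono (L : ℕ → Option (List V)) {s s' : ℕ} (h : s ≤ s') (v : V) :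
    cn L s v ≤ cn L s' v := by
  unfold cn
  refine Finset.card_le_card (Finset.filter_subset_filter _ ?_)
  intro x hx
  rw [Finset.mem_range] at hx ⊢
  omega

theorem Viol_congr {Γ : Type} {χ χ' : V → Γ} {B : List V} (h : ∀ x ∈ B, χ x = χ' x)
    (hv : Viol χ B) : Viol χ' B := by
  unfold Viol at *
  rw [← List.map_congr_left (f := χ) (g := χ') (l := B.take (B.length / 2))
    (fun x hx => h x (List.mem_of_mem_take hx)),
    ← List.map_congr_left (f := χ) (g := χ') (l := B.drop (B.length / 2))
    (fun x hx => h x (List.mem_of_mem_drop hx))]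
  exact hv

section Run

variable {Γ : Type} (sel : (V → Γ) → Option (List V)) (X : V → ℕ → Γ)
  (hsel : ∀ χ B, sel χ = some B → B ∈ E ∧ Viol χ B)

/-- vertex chosen at a relevant stage -/
noncomputable def vk (L : ℕ → Option (List V)) (s : ℕ) (A : List V) (k : ℕ)
    (h : 0 < dp L s A k) : V := (exists_vk L s A h).choose

theorem vk_mem (L : ℕ → Option (List V)) (s : ℕ) (A : List V) (k : ℕ)
    (h : 0 < dp L s A k) : vk L s A k h ∈ Bk L s k := (exists_vk L s A h).choose_spec.1

theorem vk_ht (L : ℕ → Option (List V)) (s : ℕ) (A : List V) (k : ℕ)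
    (h : 0 < dp L s A k) : ht L s A k (vk L s A k h) = dp L s A k :=
  (exists_vk L s A h).choose_spec.2

/-- the code of a step -/
noncomputable def code (E : Finset (List V)) (D : ℕ) (L : ℕ → Option (List V)) (s : ℕ)
    (A : List V) : Code V E D := fun i v =>
  if h : ∃ k, k < s ∧ Bk L s k ∈ E ∧ ∃ hd : dp L s A k = i.1 + 1, vk L s A k (by omega) = v then
    some ⟨Bk L s h.choose, h.choose_spec.2.1⟩ else none

theorem code_eq {L : ℕ → Option (List V)} {s : ℕ} {A : List V} {i : Fin D} {v : V}
    {B : {B : List V // B ∈ E}} (h : code E D L s A i v = some B) :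
    ∃ k, k < s ∧ Bk L s k = B.1 ∧ ∃ hd : dp L s A k = i.1 + 1, vk L s A k (by omega) = v := by
  unfold code at h
  split_ifs at h with h1
  refine ⟨h1.choose, h1.choose_spec.1, ?_, h1.choose_spec.2.2⟩
  simp only [Option.some.injEq] at h
  exact congrArg Subtype.val h

theorem code_of {L : ℕ → Option (List V)} {s : ℕ} {A : List V} {i : Fin D} {k : ℕ} (hk : k < s)
    (hB : Bk L s k ∈ E) (hd : dp L s A k = i.1 + 1) :
    code E D L s A i (vk L s A k (by omega)) = some ⟨Bk L s k, hB⟩ := by
  have h : ∃ k', k' < s ∧ Bk L s k' ∈ E ∧ ∃ hd' : dp L s A k' = i.1 + 1,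
      vk L s A k' (by omega) = vk L s A k (by omega) := ⟨k, hk, hB, hd, rfl⟩
  unfold code
  rw [dif_pos h]
  obtain ⟨h1, h2, h3, h4⟩ := h.choose_spec
  have h5 : vk L s A k (by omega) ∈ Bk L s h.choose := by
    rw [← h4]; exact vk_mem _ _ _ _ _
  have h6 := stage_unique L s A (k := h.choose) (k' := k) (by omega) (by omega) h5
    (vk_mem L s A k (by omega))
  congr 2
  rw [h6]

include hsel in
theorem Bk_mem {s k : ℕ} (h : Bk (lg sel X) s k ≠ []) : Bk (lg sel X) s k ∈ E := by
  unfold Bk at *
  cases h1 : lg sel X (s - 1 - k) with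
  | none => rw [h1] at h; simp at h
  | some B =>
    rw [Option.getD_some]
    exact (hsel _ _ h1).1

include hsel in
theorem Bk_mem_of_dp {s k : ℕ} {A : List V} (h : 0 < dp (lg sel X) s A k) :
    Bk (lg sel X) s k ∈ E := by
  apply Bk_mem sel X hsel
  intro h1
  unfold dp at h
  rw [h1] at h
  simp at h

include hsel in
theorem lay_code {s : ℕ} (hs : s ≤ D) (A : List V) (m : ℕ) (x : V) :
    lay (code E D (lg sel X) s A) m x ↔ 1 ≤ m ∧ Lay (lg sel X) s A m x := by
  constructor
  · rintro ⟨i, u, B, h1, h2, h3⟩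
    obtain ⟨k, hk, h4, hd, h5⟩ := code_eq h2
    exact ⟨by omega, k, hk, by omega, by rw [h4]; exact h3⟩
  · rintro ⟨hm, k, hk, hd, hx⟩
    have h1 := dp_le (lg sel X) s A k
    have hB := Bk_mem_of_dp sel X hsel (s := s) (k := k) (A := A) (by omega)
    refine ⟨⟨m - 1, by omega⟩, _, ⟨_, hB⟩, by simp; omega,
      code_of (i := ⟨m - 1, by omega⟩) hk hB (by simp; omega), hx⟩

include hsel in
theorem idx_code {s : ℕ} (hs : s ≤ D) (A : List V) {k : ℕ} (hk : k ≤ s) {d : ℕ} {x : V}
    (hd : ht (lg sel X) s A k x = d + 1) :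
    idx (code E D (lg sel X) s A) d x = cn (lg sel X) (s - k) x := by
  rw [count_key (lg sel X) s A (D + 1) (by omega) k hk x (by omega)]
  unfold idx
  congr 1
  ext m
  simp only [Finset.mem_filter, Finset.mem_range, lay_code sel X hsel hs]
  rw [hd]
  constructor
  · rintro ⟨h1, h2, h3, h4⟩
    exact ⟨h1, by omega, h4⟩
  · rintro ⟨h1, h2, h4⟩
    exact ⟨h1, by omega, by omega, h4⟩

include hsel in
theorem code_spec [Fintype V] {s : ℕ} (hs : s ≤ D) {A : List V} (hA : lg sel X s = some A) :
    Valid A.toFinset (code E D (lg sel X) s A) ∧ Proper (code E D (lg sel X) s A) ∧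
      Eqs X A (code E D (lg sel X) s A) := by
  refine ⟨?_, ?_, ?_⟩
  · intro i u B h
    obtain ⟨k, hk, h1, hd, h2⟩ := code_eq h
    have hpos : 0 < dp (lg sel X) s A k := by omega
    have h3 := vk_mem (lg sel X) s A k hpos
    have h4 := vk_ht (lg sel X) s A k hpos
    rw [h2] at h3 h4
    refine ⟨h1 ▸ h3, ?_⟩
    split_ifs with hi
    · rw [List.mem_toFinset]
      exact mem_of_ht_one (lg sel X) s A (k := k) (by omega)
    · obtain ⟨k', hk', h5, h6⟩ := exists_of_ht (lg sel X) s A (k := k) (v := u) (d := i.1)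
        (by omega) (by omega)
      exact (lay_code sel X hsel hs A i.1 u).2 ⟨by omega, k', by omega, h5, h6⟩
  · intro i u u' B B' h h' hne x hx hx'
    obtain ⟨k, hk, h1, hd, h2⟩ := code_eq h
    obtain ⟨k', hk', h1', hd', h2'⟩ := code_eq h'
    have h3 : k = k' := stage_unique (lg sel X) s A (by omega) (by omega) (h1 ▸ hx) (h1' ▸ hx')
    subst h3
    exact hne (h2.symm.trans h2')
  · intro o
    cases o with
    | none =>
      simp only [dep, ev]
      refine Viol_congr ?_ (hsel _ _ hA).2
      intro x hx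
      rw [idx_code sel X hsel hs A (k := 0) (Nat.zero_le _) (x := x)
        (by rw [ht_zero, if_pos hx]), Nat.sub_zero, cntF_eq]
    | some p =>
      obtain ⟨i, v⟩ := p
      simp only [dep, ev]
      cases h : code E D (lg sel X) s A i v with
      | none => simp [Viol]
      | some B =>
        obtain ⟨k, hk, h1, hd, h2⟩ := code_eq h
        have hpos : 0 < dp (lg sel X) s A k := by omega
        have h3 := vk_mem (lg sel X) s A k hpos
        simp only
        rw [← h1]
        have h4 : lg sel X (s - (k + 1)) = some (Bk (lg sel X) s k) := by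
          have e : s - (k + 1) = s - 1 - k := by omega
          unfold Bk at h3 ⊢
          rw [e]
          cases h5 : lg sel X (s - 1 - k) with
          | none => rw [h5] at h3; simp at h3
          | some B => simp
        refine Viol_congr ?_ (hsel _ _ h4).2
        intro x hx
        rw [idx_code sel X hsel hs A (k := k + 1) (by omega) (d := i.1 + 1) (x := x)
          (by rw [ht_succ, if_pos ⟨hx, hpos⟩, hd]), cntF_eq]

include hsel in
theorem code_inj (hE : ∀ B ∈ E, B ≠ []) {s s' : ℕ} (hs : s ≤ D) (hs' : s' ≤ D) {A : List V}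
    (hA : lg sel X s = some A) (hA' : lg sel X s' = some A)
    (h : code E D (lg sel X) s A = code E D (lg sel X) s' A) : s = s' := by
  obtain ⟨x, hx⟩ := List.exists_mem_of_ne_nil A (hE A (hsel _ _ hA).1)
  have h1 := idx_code sel X hsel hs A (k := 0) (Nat.zero_le _) (d := 0) (x := x)
    (by rw [ht_zero, if_pos hx])
  have h2 := idx_code sel X hsel hs' A (k := 0) (Nat.zero_le _) (d := 0) (x := x)
    (by rw [ht_zero, if_pos hx])
  rw [← h, h1, Nat.sub_zero, Nat.sub_zero] at h2
  have key : ∀ a b : ℕ, a < b → lg sel X a = some A → cn (lg sel X) a x < cn (lg sel X) b x := by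
    intro a b hab ha
    refine lt_of_lt_of_le ?_ (cn_mono (lg sel X) (Nat.succ_le_of_lt hab) x)
    rw [Nat.succ_eq_add_one, cn_succ, ha, Option.getD_some, if_pos hx]
    omega
  rcases lt_trichotomy s s' with h3 | h3 | h3
  · have := key s s' h3 hA
    omega
  · exact h3
  · have := key s' s h3 hA'
    omega

end Run

theorem t_MT : S_MT := by
  intro V Γ Ω _ _ _ _ X N q M hq hMN hInd E hE hw sel hsel A hA
  rcases Nat.eq_zero_or_pos M with hM | hM
  · subst hM
    simp only [Finset.range_zero, Finset.filter_empty, Finset.card_empty, Nat.cast_zero,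
      Finset.sum_const_zero]
    positivity
  obtain ⟨D, hD⟩ : ∃ D, D + 1 = M := ⟨M - 1, by omega⟩
  have hqR : (0 : ℝ) < q := by exact_mod_cast hq
  -- step 1: injection into codes
  have h1 : ∀ ω, ((Finset.range M).filter (fun s => lg sel (X ω) s = some A)).card ≤
      (Finset.univ.filter (fun g : Code V E D =>
        Valid A.toFinset g ∧ Proper g ∧ Eqs (X ω) A g)).card := by
    intro ω
    refine Finset.card_le_card_of_injOn (fun s => code E D (lg sel (X ω)) s A) ?_ ?_
    · intro s hs
      rw [Finset.coe_filter, Set.mem_setOf_eq, Finset.mem_range] at hs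
      rw [Finset.coe_filter, Set.mem_setOf_eq]
      exact ⟨Finset.mem_univ _, code_spec sel (X ω) hsel (by omega) hs.2⟩
    · intro s hs s' hs' he
      rw [Finset.coe_filter, Set.mem_setOf_eq, Finset.mem_range] at hs hs'
      exact code_inj sel (X ω) hsel (fun B hB => (hE B hB).1) (by omega) (by omega) hs.2 hs'.2 he
  -- step 2: exchange the sums
  have h2 : (∑ ω, (((Finset.range M).filter (fun s => lg sel (X ω) s = some A)).card : ℝ)) ≤
      ∑ g : Code V E D, if Valid A.toFinset g ∧ Proper g then
        ((Finset.univ.filter (fun ω : Ω => Eqs (X ω) A g)).card : ℝ) else 0 := by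
    have e1 : ∀ ω, (((Finset.range M).filter (fun s => lg sel (X ω) s = some A)).card : ℝ) ≤
        ∑ g : Code V E D, if Valid A.toFinset g ∧ Proper g ∧ Eqs (X ω) A g then (1 : ℝ) else 0 := by
      intro ω
      rw [Finset.sum_boole]
      exact_mod_cast h1 ω
    refine (Finset.sum_le_sum fun ω _ => e1 ω).trans ?_
    rw [Finset.sum_comm]
    refine Finset.sum_le_sum fun g _ => ?_
    split_ifs with hg
    · rw [← Finset.sum_boole]
      refine Finset.sum_le_sum fun ω _ => ?_
      split_ifs with h3 h4 h4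
      · exact le_rfl
      · exact absurd h3.2.2 h4
      · exact zero_le_one
      · exact le_rfl
    · refine le_of_eq (Finset.sum_eq_zero fun ω _ => ?_)
      rw [if_neg]
      rintro ⟨h3, h4, -⟩
      exact hg ⟨h3, h4⟩
  refine h2.trans ?_
  -- step 3: bound each term
  have h3 : ∀ g : Code V E D, (if Valid A.toFinset g ∧ Proper g then
        ((Finset.univ.filter (fun ω : Ω => Eqs (X ω) A g)).card : ℝ) else 0) ≤
      (Fintype.card Ω * (1 / (q : ℝ)) ^ (A.length / 2)) *
        (if Valid A.toFinset g then ∏ i, ∏ u, wt (q : ℝ) (g i u) else 0) := by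
    intro g
    by_cases hv : Valid A.toFinset g
    · rw [if_pos hv]
      split_ifs with hg
      · have h4 := card_eqs hInd (D := D) (by omega) A g hg.2 ⟨(hE A hA).2.1, (hE A hA).2.2⟩
          (fun B hB => ⟨(hE B hB).2.1, (hE B hB).2.2⟩)
        have h5 : ∑ o, (ev A g o).length / 2 = A.length / 2 +
            ∑ p : Fin D × V, (ev A g (some p)).length / 2 := by
          rw [Fintype.sum_option]
          rfl
        have h6 : (1 / (q : ℝ)) ^ (∑ p : Fin D × V, (ev A g (some p)).length / 2) =
            ∏ i, ∏ u, wt (q : ℝ) (g i u) := by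
          rw [← Finset.prod_pow_eq_pow_sum, Fintype.prod_prod_type]
          refine Finset.prod_congr rfl fun i _ => Finset.prod_congr rfl fun u _ => ?_
          simp only [ev, wt]
          cases g i u <;> simp
        rw [← h6, mul_assoc, ← pow_add, ← h5, one_div, inv_pow, ← div_eq_mul_inv,
          le_div_iff₀ (by positivity)]
        exact_mod_cast h4
      · exact mul_nonneg (by positivity) (Finset.prod_nonneg fun i _ =>
          Finset.prod_nonneg fun u _ => wt_nonneg hqR _)
    · rw [if_neg hv, if_neg (fun h => hv h.1), mul_zero]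
  refine (Finset.sum_le_sum fun g _ => h3 g).trans ?_
  rw [← Finset.mul_sum]
  have h7 := code_sum (V := V) (E := E) hqR (fun B hB => (hE B hB).2.2) hw D A.toFinset
  refine (mul_le_mul_of_nonneg_left h7 (by positivity)).trans ?_
  have h8 : A.toFinset.card ≤ A.length := List.toFinset_card_le _
  obtain ⟨c, hc⟩ := (hE A hA).2.2
  have h9 : A.length / 2 = c := by omega
  have h10 : (2 : ℝ) ^ A.toFinset.card ≤ 4 ^ c := by
    have : (4 : ℝ) ^ c = 2 ^ (2 * c) := by
      rw [pow_mul]; norm_num
    rw [this]
    exact pow_le_pow_right₀ (by norm_num) (by omega)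
  rw [h9, mul_assoc]
  refine mul_le_mul_of_nonneg_left ?_ (by positivity)
  rw [div_pow, div_pow, one_pow, one_div, mul_comm, ← div_eq_mul_inv]
  gcongr

end MT

end Pool.Agent.Run7.h412.NR
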