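import Pool.Agent.NPC.Dec

/-!
# MP_0272f9_lc: a polynomial-time Monte Carlo algorithm for nonrepetitive colourings
with `O(Δ²)` colours.  Definitions: the algorithm and the Moser-Tardos process.
-/

set_option autoImplicit false

namespace Pool.Agent.Run7.h412.NR

open Pool.Agent.NPC

/-! ### Statement -/

/-- A colouring is nonrepetitive: no path of even order `p ++ q` (`p`, `q` of the same length
`≥ 1`) has the same colour sequence on `p` and on `q`. -/
def Nonrepetitive {V : Type} (G : SimpleGraph V) (c : V → ℕ) : Prop :=
  ∀ p q : List V, p ≠ [] → p.length = q.length → (p ++ q).Nodup → (p ++ q).IsChain G.Adj →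
    p.map c ≠ q.map c

/-- The adjacency matrix of a graph, as a list of rows. -/
def adjMatrix {n : ℕ} (G : SimpleGraph (Fin n)) [DecidableRel G.Adj] : List (List Bool) :=
  List.ofFn fun i => List.ofFn fun j => decide (G.Adj i j)

/-! ### Parameters -/

/-- paths of order at most `2 * T n` are short -/
def T (n : ℕ) : ℕ := n.size + 1
/-- number of steps -/
def M (n : ℕ) : ℕ := n * n
/-- number of table entries for each vertex -/
def N (n : ℕ) : ℕ := n * n + 1
/-- number of bits of a table entry -/
def Jm (n : ℕ) : ℕ := (16 * (n * n)).size
/-- number of bits of a label -/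
def lam (n : ℕ) : ℕ := (4 * T n).size
/-- upper bound of labels -/
def Lm (n : ℕ) : ℕ := 8 * T n
def jj (n : ℕ) : ℕ := (2 * T n + 2) * (n.size + 1)
/-- number of labellings -/
def Hc (n : ℕ) : ℕ := 16 * (n * n) * jj n
/-- number of bits of the colour table -/
def P2 (n : ℕ) : ℕ := n * N n * Jm n
/-- number of bits of the labellings -/
def P1 (n : ℕ) : ℕ := Hc n * n * lam n

/-! ### The algorithm -/

/-- a block of `J` bits of `r` starting at position `o`, as a number -/
def blk (r : List Bool) (o J : ℕ) : ℕ := valB ((List.range J).map fun i => r.getD (o + i) false)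

/-- adjacency -/
def adj (m : List (List Bool)) (x y : ℕ) : Bool := (m.getD x []).getD y false

/-- degree -/
def deg (m : List (List Bool)) (x : ℕ) : ℕ := ((m.getD x []).filter (fun b => b)).length

/-- maximum degree -/
def maxDeg (m : List (List Bool)) : ℕ :=
  (List.range m.length).foldl (fun a x => Max.max a (deg m x)) 0

/-- number of bits of a colour -/
def Jb (m : List (List Bool)) : ℕ := (16 * (maxDeg m * maxDeg m)).size

/-- the colour of `v` when the counters are `cnt` -/
def colv (m : List (List Bool)) (r : List Bool) (cnt : List ℕ) (v : ℕ) : ℕ :=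
  blk r ((v * N m.length + cnt.getD v 0) * Jm m.length) (Jb m)

/-- the colours -/
def cols (m : List (List Bool)) (r : List Bool) (cnt : List ℕ) : List ℕ :=
  (List.range m.length).map (colv m r cnt)

/-- the labelling number `ρ` -/
def labs (m : List (List Bool)) (r : List Bool) (ρ : ℕ) : List ℕ :=
  (List.range m.length).map fun v =>
    blk r (P2 m.length + (ρ * m.length + v) * lam m.length) (lam m.length)

/-- A state of the search: two lists of vertices, most recent first. -/
abbrev St := List ℕ × List ℕ

/-- labels used by a state -/
def used (h : List ℕ) (s : St) : List ℕ := (s.1 ++ s.2).map (fun v => h.getD v 0)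

/-- the state `s` can be extended by `x`, `y` -/
def ok (m : List (List Bool)) (c h : List ℕ) (s : St) (x y : ℕ) : Bool :=
  adj m (s.1.head?.getD 0) x && adj m (s.2.head?.getD 0) y &&
  decide (c.getD x 0 = c.getD y 0) && !decide (h.getD x 0 = h.getD y 0) &&
  !decide (h.getD x 0 ∈ used h s) && !decide (h.getD y 0 ∈ used h s)

/-- the extensions of a state -/
def ext (m : List (List Bool)) (c h : List ℕ) (s : St) : List St :=
  (List.range m.length).flatMap fun x =>
    ((List.range m.length).filter fun y => ok m c h s x y).map fun y => (x :: s.1, y :: s.2)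

/-- the key of a state: its two heads, the first vertex of its second list and its set of labels -/
def key (L : ℕ) (h : List ℕ) (s : St) : (ℕ × ℕ) × ℕ × List Bool :=
  ((s.1.head?.getD 0, s.2.head?.getD 0), s.2.reverse.head?.getD 0,
    (List.range L).map fun l => decide (l ∈ used h s))

/-- keep one state for each key -/
def dedup (L : ℕ) (h : List ℕ) (F : List St) : List St :=
  F.foldl (fun acc s => if key L h s ∈ acc.map (key L h) then acc else s :: acc) []

/-- the initial states -/
def start (m : List (List Bool)) (c h : List ℕ) : List St :=
  (List.range m.length).flatMap fun x =>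
    ((List.range m.length).filter fun y =>
      decide (c.getD x 0 = c.getD y 0) && !decide (h.getD x 0 = h.getD y 0)).map
        fun y => ([x], [y])

/-- the states closing up to a repetitive path -/
def closed (m : List (List Bool)) (F : List St) : List St :=
  F.filter fun s => adj m (s.1.head?.getD 0) (s.2.reverse.head?.getD 0)

/-- one round of the search: the current states and the path found (`[]`: none) -/
def round (m : List (List Bool)) (c h : List ℕ) (a : List St × List ℕ) : List St × List ℕ :=
  if a.2 = [] then
    match (closed m a.1).head? with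
    | none => (dedup (Lm m.length) h (a.1.flatMap (ext m c h)), [])
    | some s => (a.1, s.1.reverse ++ s.2.reverse)
  else a

/-- the search for a repetitive path with the labelling `h` -/
def find (m : List (List Bool)) (c h : List ℕ) : List ℕ :=
  ((round m c h)^[T m.length] (start m c h, [])).2

/-- the search with all labellings -/
def search (m : List (List Bool)) (r : List Bool) (c : List ℕ) : List ℕ :=
  (List.range (Hc m.length)).foldl (fun a ρ => if a = [] then find m c (labs m r ρ) else a) []

/-- one step of the algorithm: the new counters -/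
def step (m : List (List Bool)) (r : List Bool) (cnt : List ℕ) : List ℕ :=
  (List.range m.length).map fun v =>
    cnt.getD v 0 + if v ∈ search m r (cols m r cnt) then 1 else 0

/-- the algorithm -/
def alg (m : List (List Bool)) (r : List Bool) : List ℕ :=
  cols m r ((step m r)^[M m.length] (List.replicate m.length 0))

/-! ### The Moser-Tardos process -/

/-- The list `B` of vertices has the same colours on its two halves. -/
def Viol {V Γ : Type} (χ : V → Γ) (B : List V) : Prop :=
  (B.take (B.length / 2)).map χ = (B.drop (B.length / 2)).map χ

/-- counters after `s` steps -/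
def cntF {V Γ : Type} [DecidableEq V] (sel : (V → Γ) → Option (List V)) (X : V → ℕ → Γ) :
    ℕ → V → ℕ
  | 0 => fun _ => 0
  | s + 1 => fun v => cntF sel X s v +
      if v ∈ (sel (fun u => X u (cntF sel X s u))).getD [] then 1 else 0

/-- the list resampled in step `s` -/
def lg {V Γ : Type} [DecidableEq V] (sel : (V → Γ) → Option (List V)) (X : V → ℕ → Γ) (s : ℕ) :
    Option (List V) := sel (fun u => X u (cntF sel X s u))

/-- Independence of the entries with index `< N`: for every set of disjoint pairs of entries the
probability that the two entries of each pair agree is at most `q^(-number of pairs)`. -/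
def Indep {V Γ Ω : Type} [Fintype Ω] [DecidableEq V] [DecidableEq Γ] (X : Ω → V → ℕ → Γ)
    (N q : ℕ) : Prop :=
  ∀ P : Finset ((V × ℕ) × (V × ℕ)),
    (∀ a ∈ P, a.1.2 < N ∧ a.2.2 < N) →
    (∀ a ∈ P, ∀ b ∈ P, a.1 = b.1 → a = b) →
    (∀ a ∈ P, ∀ b ∈ P, a.1 ≠ b.2) →
    (∀ a ∈ P, ∀ b ∈ P, a.2 = b.2 → a = b) →
    (Finset.univ.filter (fun ω : Ω => ∀ a ∈ P, X ω a.1.1 a.1.2 = X ω a.2.1 a.2.2)).card *
      q ^ P.card ≤ Fintype.card Ω

/-- the even paths of a graph, as lists of vertices -/
def EvenPath {V : Type} (G : SimpleGraph V) (B : List V) : Prop :=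
  B ≠ [] ∧ B.Nodup ∧ B.IsChain G.Adj ∧ Even B.length

end Pool.Agent.Run7.h412.NR
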