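import Pool.Agent.Run7.h412.NR.Iface

/-!
# Assembly, part A: the adjacency matrix and the blocks of bits
-/

set_option autoImplicit false

namespace Pool.Agent.Run7.h412.NR

open Pool.Agent.NPC

theorem adjMatrix_length {n : ℕ} (G : SimpleGraph (Fin n)) [DecidableRel G.Adj] :
    (adjMatrix G).length = n := by simp [adjMatrix]

theorem adjMatrix_getD {n : ℕ} (G : SimpleGraph (Fin n)) [DecidableRel G.Adj] (x : Fin n) :
    (adjMatrix G).getD x.1 [] = List.ofFn fun j => decide (G.Adj x j) := by
  unfold adjMatrix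
  rw [List.getD_eq_getElem _ _ (by simp)]
  simp

theorem adj_adjMatrix {n : ℕ} (G : SimpleGraph (Fin n)) [DecidableRel G.Adj] (x y : Fin n) :
    adj (adjMatrix G) x.1 y.1 = decide (G.Adj x y) := by
  unfold adj
  rw [adjMatrix_getD, List.getD_eq_getElem _ _ (by simp)]
  simp

theorem length_filter_ofFn {n : ℕ} (f : Fin n → Bool) :
    ((List.ofFn f).filter (fun b => b)).length =
      (Finset.univ.filter (fun i => f i = true)).card := by
  rw [List.ofFn_eq_map, List.filter_map, List.length_map]
  have h1 : ((List.finRange n).filter ((fun b => b) ∘ f)).Nodup :=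
    (List.nodup_finRange n).filter _
  rw [← List.toFinset_card_of_nodup h1]
  congr 1
  ext i
  simp

theorem deg_adjMatrix {n : ℕ} (G : SimpleGraph (Fin n)) [DecidableRel G.Adj] (x : Fin n) :
    deg (adjMatrix G) x.1 = G.degree x := by
  unfold deg
  rw [adjMatrix_getD, length_filter_ofFn, ← SimpleGraph.card_neighborFinset_eq_degree]
  congr 1
  ext i
  simp

theorem foldl_max_spec (f : ℕ → ℕ) : ∀ (l : List ℕ) (a : ℕ),
    a ≤ l.foldl (fun a x => Max.max a (f x)) a ∧
    (∀ x ∈ l, f x ≤ l.foldl (fun a x => Max.max a (f x)) a) ∧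
    (l.foldl (fun a x => Max.max a (f x)) a = a ∨
      ∃ x ∈ l, l.foldl (fun a x => Max.max a (f x)) a = f x) := by
  intro l
  induction l with
  | nil => intro a; simp
  | cons b l ih =>
    intro a
    obtain ⟨h1, h2, h3⟩ := ih (Max.max a (f b))
    simp only [List.foldl_cons]
    refine ⟨(le_max_left _ _).trans h1, ?_, ?_⟩
    · intro x hx
      rcases List.mem_cons.1 hx with rfl | hx
      · exact (le_max_right _ _).trans h1
      · exact h2 x hx
    · rcases h3 with h3 | ⟨x, hx, h3⟩
      · rw [h3]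
        rcases max_choice a (f b) with h4 | h4
        · exact Or.inl h4
        · exact Or.inr ⟨b, List.mem_cons_self, h4⟩
      · exact Or.inr ⟨x, List.mem_cons_of_mem _ hx, h3⟩

theorem maxDeg_adjMatrix {n : ℕ} (hn : 1 ≤ n) (G : SimpleGraph (Fin n)) [DecidableRel G.Adj] :
    maxDeg (adjMatrix G) = G.maxDegree := by
  haveI : Nonempty (Fin n) := ⟨⟨0, hn⟩⟩
  unfold maxDeg
  rw [adjMatrix_length]
  obtain ⟨-, h2, h3⟩ := foldl_max_spec (deg (adjMatrix G)) (List.range n) 0
  apply le_antisymm
  · rcases h3 with h3 | ⟨x, hx, h3⟩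
    · rw [h3]; exact Nat.zero_le _
    · rw [h3]
      have := deg_adjMatrix G ⟨x, List.mem_range.1 hx⟩
      simp only at this
      rw [this]
      exact G.degree_le_maxDegree _
  · obtain ⟨v, hv⟩ := G.exists_maximal_degree_vertex
    rw [hv, ← deg_adjMatrix G v]
    exact h2 v.1 (List.mem_range.2 v.2)

theorem blk_lt (r : List Bool) (o J : ℕ) : blk r o J < 2 ^ J := by
  have := valB_lt ((List.range J).map fun i => r.getD (o + i) false)
  simpa [blk] using this

theorem blk_append_left {l l' : List Bool} {o J : ℕ} (h : o + J ≤ l.length) :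
    blk (l ++ l') o J = blk l o J := by
  unfold blk
  congr 1
  refine List.map_congr_left fun i hi => ?_
  rw [List.mem_range] at hi
  rw [List.getD_append _ _ _ _ (by omega)]

theorem blk_append_right (l l' : List Bool) (o J : ℕ) :
    blk (l ++ l') (l.length + o) J = blk l' o J := by
  unfold blk
  congr 1
  refine List.map_congr_left fun i _ => ?_
  rw [List.getD_append_right _ _ _ _ (by omega)]
  congr 1
  omega

theorem two_pow_size_le {m : ℕ} (hm : 0 < m) : 2 ^ m.size ≤ 2 * m := by
  have h1 : 0 < m.size := Nat.size_pos.2 hm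
  obtain ⟨k, hk⟩ : ∃ k, m.size = k + 1 := ⟨m.size - 1, by omega⟩
  have h2 : 2 ^ k ≤ m := by
    by_contra h
    push Not at h
    have := Nat.size_le.2 h
    omega
  rw [hk, pow_succ]
  omega

theorem lt_two_pow_size (m : ℕ) : m < 2 ^ m.size := Nat.lt_size_self m

/-- the polynomial bounding the number of random bits -/
noncomputable def pol : Polynomial ℕ :=
  Polynomial.X * (Polynomial.X * Polynomial.X + 1) * (16 * (Polynomial.X * Polynomial.X)) +
  (16 * (Polynomial.X * Polynomial.X) * ((2 * (Polynomial.X + 1) + 2) * (Polynomial.X + 1))) *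
    Polynomial.X * (4 * (Polynomial.X + 1))

theorem le_pol (n : ℕ) : P2 n + P1 n ≤ pol.eval n := by
  have h0 : n.size ≤ n := NPC.Poly.size_le_self n
  have h1 : Jm n ≤ 16 * (n * n) := NPC.Poly.size_le_self _
  have h2 : T n ≤ n + 1 := by unfold T; omega
  have h3 : lam n ≤ 4 * (n + 1) := (NPC.Poly.size_le_self _).trans (by omega)
  have h4 : jj n ≤ (2 * (n + 1) + 2) * (n + 1) := by
    unfold jj
    exact Nat.mul_le_mul (by omega) (by omega)
  have e : pol.eval n = n * (n * n + 1) * (16 * (n * n)) +
      (16 * (n * n) * ((2 * (n + 1) + 2) * (n + 1))) * n * (4 * (n + 1)) := by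
    simp [pol]
  rw [e]
  unfold P2 P1 N Hc
  gcongr

end Pool.Agent.Run7.h412.NR
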