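import Pool.Agent.Run7.h412.NR.FA

/-!
# Assembly, part B: the selection rule and the run of the algorithm
-/

set_option autoImplicit false

namespace Pool.Agent.Run7.h412.NR

open Pool.Agent.NPC

namespace Run

/-- search with a list of labellings given by a function -/
def srch (m : List (List Bool)) (LR : ℕ → List ℕ) (c : List ℕ) : List ℕ :=
  (List.range (Hc m.length)).foldl (fun a ρ => if a = [] then find m c (LR ρ) else a) []

theorem foldl_spec (m : List (List Bool)) (LR : ℕ → List ℕ) (c : List ℕ) :
    ∀ (l : List ℕ) (a : List ℕ),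
      let r := l.foldl (fun a ρ => if a = [] then find m c (LR ρ) else a) a
      (a ≠ [] → r = a) ∧ (a = [] → (r = [] ∧ ∀ ρ ∈ l, find m c (LR ρ) = []) ∨
        (r ≠ [] ∧ ∃ ρ ∈ l, r = find m c (LR ρ))) := by
  intro l
  induction l with
  | nil => intro a; simp
  | cons b l ih =>
    intro a
    simp only [List.foldl_cons]
    by_cases ha : a = []
    · rw [if_pos ha]
      refine ⟨fun h => absurd ha h, fun _ => ?_⟩
      obtain ⟨h1, h2⟩ := ih (find m c (LR b))
      by_cases hf : find m c (LR b) = []
      · rcases h2 hf with ⟨h3, h4⟩ | ⟨h3, ρ, h4, h5⟩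
        · left
          refine ⟨h3, ?_⟩
          intro ρ hρ
          rcases List.mem_cons.1 hρ with rfl | hρ
          · exact hf
          · exact h4 ρ hρ
        · right
          exact ⟨h3, ρ, List.mem_cons_of_mem _ h4, h5⟩
      · right
        have h3 := h1 hf
        refine ⟨by rw [h3]; exact hf, b, List.mem_cons_self, h3⟩
    · rw [if_neg ha]
      exact ⟨fun _ => (ih a).1 ha, fun h => absurd h ha⟩

theorem srch_spec (m : List (List Bool)) (LR : ℕ → List ℕ) (c : List ℕ) :
    (srch m LR c = [] ∧ ∀ ρ < Hc m.length, find m c (LR ρ) = []) ∨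
      (srch m LR c ≠ [] ∧ ∃ ρ < Hc m.length, srch m LR c = find m c (LR ρ)) := by
  have := (foldl_spec m LR c (List.range (Hc m.length)) []).2 rfl
  simp only [List.mem_range] at this
  exact this

section

variable {n : ℕ} (hn : 1 ≤ n) (G : SimpleGraph (Fin n)) [DecidableRel G.Adj]

/-- number to vertex -/
def toF (hn : 1 ≤ n) (x : ℕ) : Fin n := ⟨x % n, Nat.mod_lt _ hn⟩

theorem toF_val {x : ℕ} (hx : x < n) : (toF hn x).1 = x := Nat.mod_eq_of_lt hx

/-- the selection rule of the algorithm -/
def sel (hn : 1 ≤ n) (G : SimpleGraph (Fin n)) [DecidableRel G.Adj] (LR : ℕ → List ℕ)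
    (χ : Fin n → ℕ) : Option (List (Fin n)) :=
  if srch (adjMatrix G) LR (List.ofFn χ) = [] then none
  else some ((srch (adjMatrix G) LR (List.ofFn χ)).map (toF hn))

theorem getD_ofFn (χ : Fin n → ℕ) {x : ℕ} (hx : x < n) (d : ℕ) :
    (List.ofFn χ).getD x d = χ ⟨x, hx⟩ := by
  rw [List.getD_eq_getElem _ _ (by simpa using hx)]
  simp

theorem sel_sound (hS : S_SOUND) (LR : ℕ → List ℕ) (χ : Fin n → ℕ) (B : List (Fin n))
    (hB : sel hn G LR χ = some B) : EvenPath G B ∧ Viol χ B ∧
      (∀ v : Fin n, v ∈ B ↔ v.1 ∈ srch (adjMatrix G) LR (List.ofFn χ)) := by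
  unfold sel at hB
  split_ifs at hB with h0
  simp only [Option.some.injEq] at hB
  rcases srch_spec (adjMatrix G) LR (List.ofFn χ) with ⟨h, -⟩ | ⟨-, ρ, -, h2⟩
  · exact absurd h h0
  obtain ⟨p, q, h3, h4, h5, h6, h7, h8, h9⟩ := hS (adjMatrix G) (List.ofFn χ) (LR ρ)
    (by rw [← h2]; exact h0)
  rw [← h2] at h3
  rw [adjMatrix_length] at h7
  have hval : ∀ x ∈ p ++ q, (toF hn x).1 = x := fun x hx => toF_val hn (h7 x hx)
  have hinj : ∀ x ∈ p ++ q, ∀ y ∈ p ++ q, toF hn x = toF hn y → x = y := by
    intro x hx y hy he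
    rw [← hval x hx, ← hval y hy, he]
  rw [h3] at hB
  have hmem : ∀ v : Fin n, v ∈ B ↔ v.1 ∈ srch (adjMatrix G) LR (List.ofFn χ) := by
    intro v
    rw [h3, ← hB, List.mem_map]
    constructor
    · rintro ⟨x, hx, rfl⟩
      rw [hval x hx]
      exact hx
    · intro hv
      exact ⟨v.1, hv, Fin.ext (hval _ hv)⟩
  have hlen : B.length = 2 * p.length := by
    rw [← hB]; simp; omega
  refine ⟨⟨?_, ?_, ?_, ?_⟩, ?_, hmem⟩
  · intro h
    rw [h] at hlen
    simp only [List.length_nil] at hlen
    have := List.length_pos_iff.2 h4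
    omega
  · rw [← hB]
    exact List.Nodup.map_on hinj h6
  · rw [← hB, List.isChain_map]
    refine List.IsChain.imp_of_mem_imp ?_ h8
    intro x y hx hy hxy
    have := adj_adjMatrix G (toF hn x) (toF hn y)
    rw [hval x hx, hval y hy, hxy] at this
    simpa using this.symm
  · rw [hlen]; exact ⟨p.length, by omega⟩
  · unfold Viol
    have hl2 : B.length / 2 = p.length := by omega
    rw [hl2, ← hB, List.map_append]
    have e1 : ((p.map (toF hn)) ++ q.map (toF hn)).take p.length = p.map (toF hn) := by
      rw [List.take_append_of_le_length (by simp), List.take_of_length_le (by simp)]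
    have e2 : ((p.map (toF hn)) ++ q.map (toF hn)).drop p.length = q.map (toF hn) := by
      rw [List.drop_append_of_le_length (by simp), List.drop_of_length_le (by simp),
        List.nil_append]
    rw [e1, e2, List.map_map, List.map_map]
    have key : ∀ l : List ℕ, (∀ x ∈ l, x ∈ p ++ q) → l.map (fun x => (List.ofFn χ).getD x 0) =
        l.map (χ ∘ toF hn) := by
      intro l hl
      refine List.map_congr_left fun x hx => ?_
      rw [getD_ofFn χ (h7 x (hl x hx))]
      simp only [Function.comp]
      congr 1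
      exact Fin.ext (hval x (hl x hx)).symm
    rw [← key p (fun x hx => List.mem_append_left _ hx),
      ← key q (fun x hx => List.mem_append_right _ hx)]
    exact h9

theorem sel_compl (hC : S_COMPL) (h : ℕ → Fin n → ℕ) (hh : ∀ ρ v, h ρ v < Lm n)
    (hP : Perfect n h) (χ : Fin n → ℕ) (B : List (Fin n)) (hB : EvenPath G B) (hv : Viol χ B)
    (hl : B.length ≤ 2 * T n) : sel hn G (fun ρ => List.ofFn (h ρ)) χ ≠ none := by
  obtain ⟨ρ, hρ, hnd⟩ := hP B hB.2.1 hl
  unfold sel
  intro he
  split_ifs at he with h0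
  rcases srch_spec (adjMatrix G) (fun ρ => List.ofFn (h ρ)) (List.ofFn χ) with ⟨-, h1⟩ | ⟨h1, -⟩
  swap
  · exact h1 h0
  rw [adjMatrix_length] at h1
  refine hC (adjMatrix G) (List.ofFn χ) (List.ofFn (h ρ)) ((B.take (B.length / 2)).map (·.1))
    ((B.drop (B.length / 2)).map (·.1)) ?_ ?_ ?_ ?_ ?_ ?_ ?_ ?_ (h1 ρ hρ)
  all_goals try rw [adjMatrix_length]
  · intro h2
    have h3 := congrArg List.length h2
    simp only [List.length_map, List.length_take, List.length_nil] at h3
    have h4 := List.length_pos_iff.2 hB.1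
    obtain ⟨c, hc⟩ := hB.2.2.2
    omega
  · obtain ⟨c, hc⟩ := hB.2.2.2
    simp only [List.length_map, List.length_take, List.length_drop]
    omega
  · simp only [List.length_map, List.length_take]
    omega
  · intro x hx
    rw [← List.map_append, List.take_append_drop, List.mem_map] at hx
    obtain ⟨v, -, rfl⟩ := hx
    exact v.2
  · intro x hx
    rw [← List.map_append, List.take_append_drop, List.mem_map] at hx
    obtain ⟨v, -, rfl⟩ := hx
    rw [getD_ofFn _ v.2]
    exact hh ρ _
  · rw [← List.map_append, List.take_append_drop, List.map_map]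
    convert! hnd using 1
    refine List.map_congr_left fun v _ => ?_
    simp only [Function.comp]
    rw [getD_ofFn _ v.2]
  · rw [← List.map_append, List.take_append_drop, List.isChain_map]
    refine List.IsChain.imp (fun x y hxy => ?_) hB.2.2.1
    rw [adj_adjMatrix]
    simpa using hxy
  · rw [List.map_map, List.map_map]
    have key : ∀ l : List (Fin n), l.map ((fun x => (List.ofFn χ).getD x 0) ∘ (·.1)) =
        l.map χ := by
      intro l
      refine List.map_congr_left fun v _ => ?_
      simp only [Function.comp]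
      rw [getD_ofFn _ v.2]
    rw [key, key]
    exact hv

end

end Run

end Pool.Agent.Run7.h412.NR
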