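import Pool.Agent.Run7.h412.NR.FB

/-!
# Assembly, part C: a good random string gives a nonrepetitive colouring
-/

set_option autoImplicit false

namespace Pool.Agent.Run7.h412.NR

open Pool.Agent.NPC

namespace Run

open Classical

variable {n : ℕ} (hn : 1 ≤ n) (G : SimpleGraph (Fin n)) [DecidableRel G.Adj]

/-- all even paths -/
noncomputable def paths (G : SimpleGraph (Fin n)) : Finset (List (Fin n)) :=
  ((Finset.univ : Finset {l : List (Fin n) // l.Nodup}).image Subtype.val).filter (EvenPath G)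

theorem mem_paths {B : List (Fin n)} : B ∈ paths G ↔ EvenPath G B := by
  unfold paths
  rw [Finset.mem_filter, Finset.mem_image]
  constructor
  · exact fun h => h.2
  · intro h
    exact ⟨⟨⟨B, h.2.1⟩, Finset.mem_univ _, rfl⟩, h⟩

/-- the extended selection rule: long violated paths are selected when no short one is found -/
noncomputable def sel' (LR : ℕ → List ℕ) (χ : Fin n → ℕ) : Option (List (Fin n)) :=
  if sel hn G LR χ ≠ none then sel hn G LR χ
  else if h : ∃ B, EvenPath G B ∧ Viol χ B then some h.choose else none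

theorem sel'_sound (hS : S_SOUND) (LR : ℕ → List ℕ) (χ : Fin n → ℕ) (B : List (Fin n))
    (hB : sel' hn G LR χ = some B) : B ∈ paths G ∧ Viol χ B := by
  rw [mem_paths]
  unfold sel' at hB
  split_ifs at hB with h1 h2
  · obtain ⟨h3, h4, -⟩ := sel_sound hn G hS LR χ B hB
    exact ⟨h3, h4⟩
  · simp only [Option.some.injEq] at hB
    rw [← hB]
    exact h2.choose_spec

theorem nonrep_of_sel'_none {LR : ℕ → List ℕ} {χ : Fin n → ℕ} (h : sel' hn G LR χ = none) :
    sel hn G LR χ = none ∧ Nonrepetitive G χ := by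
  unfold sel' at h
  split_ifs at h with h1 h2
  · exact absurd h h1
  · push Not at h1
    refine ⟨h1, ?_⟩
    intro p q hp hl hnd hch he
    apply h2
    refine ⟨p ++ q, ⟨?_, hnd, hch, ?_⟩, ?_⟩
    · intro h3
      exact hp (List.append_eq_nil_iff.1 h3).1
    · rw [List.length_append, ← hl]
      exact ⟨p.length, rfl⟩
    · unfold Viol
      have h3 : (p ++ q).length / 2 = p.length := by
        rw [List.length_append]; omega
      rw [h3, List.take_append_of_le_length le_rfl, List.take_length,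
        List.drop_append_of_le_length le_rfl, List.drop_length, List.nil_append]
      exact he

/-- a selected short path is selected by the algorithm -/
theorem sel_eq_of_short (hC : S_COMPL) (h : ℕ → Fin n → ℕ) (hh : ∀ ρ v, h ρ v < Lm n)
    (hP : Perfect n h) (hS : S_SOUND) (χ : Fin n → ℕ) (B : List (Fin n))
    (hB : sel' hn G (fun ρ => List.ofFn (h ρ)) χ = some B) (hl : B.length ≤ 2 * T n) :
    sel hn G (fun ρ => List.ofFn (h ρ)) χ = some B := by
  have h1 := sel'_sound hn G hS _ χ B hB
  rw [mem_paths] at h1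
  have h2 := sel_compl hn G hC h hh hP χ B h1.1 h1.2 hl
  unfold sel' at hB
  rwa [if_pos h2] at hB

theorem cntF_le {V Γ : Type} [DecidableEq V] (sl : (V → Γ) → Option (List V)) (X : V → ℕ → Γ)
    (s : ℕ) (v : V) : cntF sl X s v ≤ s := by
  induction s with
  | zero => exact le_rfl
  | succ s ih =>
    unfold cntF
    split_ifs <;> omega

theorem range_map_ofFn {β : Type} (f : ℕ → β) : (List.range n).map f =
    List.ofFn (fun v : Fin n => f v.1) := by
  apply List.ext_getElem
  · simp
  · intro i h1 h2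
    simp

theorem cols_eq (r : List Bool) (x : Fin n → ℕ → ℕ)
    (hcol : ∀ (v : Fin n) (i : ℕ), i < N n →
      blk r ((v.1 * N n + i) * Jm n) (Jb (adjMatrix G)) = x v i)
    (cnt : Fin n → ℕ) (hc : ∀ v, cnt v < N n) :
    cols (adjMatrix G) r (List.ofFn cnt) = List.ofFn (fun v => x v (cnt v)) := by
  unfold cols
  rw [adjMatrix_length, range_map_ofFn]
  congr 1
  funext v
  unfold colv
  rw [adjMatrix_length, getD_ofFn cnt v.2]
  exact hcol v _ (hc v)

theorem search_eq (h : ℕ → Fin n → ℕ) (r : List Bool)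
    (hlab : ∀ ρ < Hc n, labs (adjMatrix G) r ρ = List.ofFn (h ρ)) (c : List ℕ) :
    search (adjMatrix G) r c = srch (adjMatrix G) (fun ρ => List.ofFn (h ρ)) c := by
  unfold search srch
  rw [adjMatrix_length]
  have key : ∀ (l : List ℕ), (∀ ρ ∈ l, ρ < Hc n) → ∀ a : List ℕ,
      l.foldl (fun a ρ => if a = [] then find (adjMatrix G) c (labs (adjMatrix G) r ρ) else a) a =
      l.foldl (fun a ρ => if a = [] then find (adjMatrix G) c (List.ofFn (h ρ)) else a) a := by
    intro l
    induction l with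
    | nil => intro _ a; rfl
    | cons b l ih =>
      intro hl a
      simp only [List.foldl_cons]
      rw [hlab b (hl b List.mem_cons_self), ih (fun ρ hρ => hl ρ (List.mem_cons_of_mem _ hρ))]
  exact key _ (fun ρ hρ => List.mem_range.1 hρ) []

theorem step_eq (h : ℕ → Fin n → ℕ) (r : List Bool) (x : Fin n → ℕ → ℕ)
    (hlab : ∀ ρ < Hc n, labs (adjMatrix G) r ρ = List.ofFn (h ρ))
    (hcol : ∀ (v : Fin n) (i : ℕ), i < N n →
      blk r ((v.1 * N n + i) * Jm n) (Jb (adjMatrix G)) = x v i)
    (cnt : Fin n → ℕ) (hc : ∀ v, cnt v < N n) :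
    step (adjMatrix G) r (List.ofFn cnt) = List.ofFn (fun v => cnt v +
      if v.1 ∈ srch (adjMatrix G) (fun ρ => List.ofFn (h ρ))
        (List.ofFn (fun v => x v (cnt v))) then 1 else 0) := by
  unfold step
  rw [cols_eq G r x hcol cnt hc, search_eq G h r hlab, adjMatrix_length, range_map_ofFn]
  congr 1
  funext v
  rw [getD_ofFn cnt v.2]

/-- The run of the algorithm, when no long path is selected before step `s`. -/
theorem run_eq (hS : S_SOUND) (hC : S_COMPL) (h : ℕ → Fin n → ℕ) (hh : ∀ ρ v, h ρ v < Lm n)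
    (hP : Perfect n h) (r : List Bool) (x : Fin n → ℕ → ℕ)
    (hlab : ∀ ρ < Hc n, labs (adjMatrix G) r ρ = List.ofFn (h ρ))
    (hcol : ∀ (v : Fin n) (i : ℕ), i < N n →
      blk r ((v.1 * N n + i) * Jm n) (Jb (adjMatrix G)) = x v i)
    (s : ℕ) (hs : s ≤ M n)
    (hshort : ∀ s' < s, ∃ B, lg (sel' hn G (fun ρ => List.ofFn (h ρ))) x s' = some B ∧
      B.length ≤ 2 * T n) :
    (step (adjMatrix G) r)^[s] (List.replicate n 0) =
      List.ofFn (fun v => cntF (sel' hn G (fun ρ => List.ofFn (h ρ))) x s v) := by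
  induction s with
  | zero =>
    simp only [Function.iterate_zero, id]
    apply List.ext_getElem
    · simp
    · intro i h1 h2
      simp [cntF]
  | succ s ih =>
    rw [Function.iterate_succ_apply', ih (by omega) (fun s' hs' => hshort s' (by omega))]
    have hc : ∀ v, cntF (sel' hn G (fun ρ => List.ofFn (h ρ))) x s v < N n := by
      intro v
      have := cntF_le (sel' hn G (fun ρ => List.ofFn (h ρ))) x s v
      unfold N
      unfold M at hs
      omega
    rw [step_eq G h r x hlab hcol _ hc]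
    congr 1
    funext v
    obtain ⟨B, hB, hBl⟩ := hshort s (Nat.lt_succ_self _)
    have h1 : sel' hn G (fun ρ => List.ofFn (h ρ)) (fun u => x u
        (cntF (sel' hn G (fun ρ => List.ofFn (h ρ))) x s u)) = some B := hB
    have h2 := sel_eq_of_short hn G hC h hh hP hS _ B h1 hBl
    obtain ⟨-, -, h3⟩ := sel_sound hn G hS _ _ B h2
    rw [show cntF (sel' hn G (fun ρ => List.ofFn (h ρ))) x (s + 1) v =
      cntF (sel' hn G (fun ρ => List.ofFn (h ρ))) x s v +
      if v ∈ (sel' hn G (fun ρ => List.ofFn (h ρ)) (fun u => x u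
        (cntF (sel' hn G (fun ρ => List.ofFn (h ρ))) x s u))).getD [] then 1 else 0 from rfl,
      h1, Option.getD_some]
    congr 1
    simp only [h3 v]

/-- A good random string gives a nonrepetitive colouring. -/
theorem alg_good (hS : S_SOUND) (hC : S_COMPL) (h : ℕ → Fin n → ℕ) (hh : ∀ ρ v, h ρ v < Lm n)
    (hP : Perfect n h) (r : List Bool) (x : Fin n → ℕ → ℕ)
    (hlab : ∀ ρ < Hc n, labs (adjMatrix G) r ρ = List.ofFn (h ρ))
    (hcol : ∀ (v : Fin n) (i : ℕ), i < N n →
      blk r ((v.1 * N n + i) * Jm n) (Jb (adjMatrix G)) = x v i)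
    (hshort : ∀ s < M n, ∀ B, lg (sel' hn G (fun ρ => List.ofFn (h ρ))) x s = some B →
      B.length ≤ 2 * T n)
    (hhalt : ∃ s < M n, lg (sel' hn G (fun ρ => List.ofFn (h ρ))) x s = none) :
    ∃ c : Fin n → ℕ, alg (adjMatrix G) r = List.ofFn c ∧ Nonrepetitive G c ∧
      ∀ v, ∃ i < N n, c v = x v i := by
  obtain ⟨s, ⟨hs, hnone⟩, hmin⟩ : ∃ s, (s < M n ∧
      lg (sel' hn G (fun ρ => List.ofFn (h ρ))) x s = none) ∧
      ∀ s' < s, ¬ (s' < M n ∧ lg (sel' hn G (fun ρ => List.ofFn (h ρ))) x s' = none) :=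
    ⟨Nat.find hhalt, Nat.find_spec hhalt, fun s' hs' => Nat.find_min hhalt hs'⟩
  have hrun := run_eq hn G hS hC h hh hP r x hlab hcol s hs.le (by
    intro s' hs'
    have h1 := hmin s' hs'
    cases h2 : lg (sel' hn G (fun ρ => List.ofFn (h ρ))) x s' with
    | none => exact absurd ⟨by omega, h2⟩ h1
    | some B => exact ⟨B, rfl, hshort s' (by omega) B h2⟩)
  obtain ⟨h1, h2⟩ := nonrep_of_sel'_none hn G (χ := fun u => x u
    (cntF (sel' hn G (fun ρ => List.ofFn (h ρ))) x s u)) hnone
  have hc : ∀ v, cntF (sel' hn G (fun ρ => List.ofFn (h ρ))) x s v < N n := by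
    intro v
    have := cntF_le (sel' hn G (fun ρ => List.ofFn (h ρ))) x s v
    unfold N
    unfold M at hs
    omega
  have hsr : srch (adjMatrix G) (fun ρ => List.ofFn (h ρ)) (List.ofFn (fun v => x v
      (cntF (sel' hn G (fun ρ => List.ofFn (h ρ))) x s v))) = [] := by
    unfold sel at h1
    by_contra h3
    rw [if_neg h3] at h1
    cases h1
  have hfix : step (adjMatrix G) r (List.ofFn (fun v =>
      cntF (sel' hn G (fun ρ => List.ofFn (h ρ))) x s v)) = List.ofFn (fun v =>
      cntF (sel' hn G (fun ρ => List.ofFn (h ρ))) x s v) := by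
    rw [step_eq G h r x hlab hcol _ hc]
    congr 1
    funext v
    rw [hsr]
    simp
  have hend : (step (adjMatrix G) r)^[M n] (List.replicate n 0) = List.ofFn (fun v =>
      cntF (sel' hn G (fun ρ => List.ofFn (h ρ))) x s v) := by
    obtain ⟨k, hk⟩ : ∃ k, M n = k + s := ⟨M n - s, by omega⟩
    rw [hk, Function.iterate_add_apply, hrun]
    clear hk
    induction k with
    | zero => rfl
    | succ k ih => rw [Function.iterate_succ_apply, hfix, ih]
  refine ⟨fun v => x v (cntF (sel' hn G (fun ρ => List.ofFn (h ρ))) x s v), ?_, h2,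
    fun v => ⟨_, hc v, rfl⟩⟩
  unfold alg
  rw [adjMatrix_length, hend]
  exact cols_eq G r x hcol _ hc

end Run

end Pool.Agent.Run7.h412.NR
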