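import Pool.Agent.Run7.h412.NR.FC

/-!
# Assembly, part D: the probability of failure for a fixed perfect family of labellings
-/

set_option autoImplicit false

namespace Pool.Agent.Run7.h412.NR

open Pool.Agent.NPC

namespace Run

open Classical

variable {n : ℕ} (hn : 1 ≤ n) (G : SimpleGraph (Fin n)) [DecidableRel G.Adj]

/-- the colour table -/
def tab (n J : ℕ) (r : Fin (P2 n) → Bool) (v : Fin n) (i : ℕ) : ℕ :=
  blk (List.ofFn r) ((v.1 * N n + i) * Jm n) J

theorem sum_lg_le (hMT : S_MT) (hCNT : S_CNT) (hIND : S_IND) (J : ℕ) (hJ : J ≤ Jm n)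
    (hq : 16 * (G.maxDegree * G.maxDegree) ≤ 2 ^ J)
    (sl : (Fin n → ℕ) → Option (List (Fin n)))
    (hsl : ∀ χ B, sl χ = some B → B ∈ paths G ∧ Viol χ B) (T' : ℕ) :
    (∑ ω : Fin (P2 n) → Bool, ∑ B ∈ (paths G).filter (fun B => 2 * T' < B.length),
      (((Finset.range (M n)).filter (fun s => lg sl (tab n J ω) s = some B)).card : ℝ)) ≤
      (2 : ℝ) ^ (P2 n) * ((n : ℝ) / (3 * 4 ^ T')) := by
  have hE : ∀ B ∈ paths G, EvenPath G B := fun B hB => (mem_paths G).1 hB
  have hcnt := hCNT n G (2 ^ J) (by positivity) hq (paths G) hE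
  rw [Finset.sum_comm]
  have h1 : ∀ B ∈ (paths G).filter (fun B => 2 * T' < B.length),
      (∑ ω : Fin (P2 n) → Bool,
        (((Finset.range (M n)).filter (fun s => lg sl (tab n J ω) s = some B)).card : ℝ)) ≤
      (2 : ℝ) ^ (P2 n) * ((4 : ℝ) / ((2 ^ J : ℕ) : ℝ)) ^ (B.length / 2) := by
    intro B hB
    have := hMT (Fin n) ℕ (Fin (P2 n) → Bool) (tab n J) (N n) (2 ^ J) (M n) (by positivity)
      (by unfold M N; omega) (hIND n J hJ) (paths G)
      (fun B hB => ⟨(hE B hB).1, (hE B hB).2.1, (hE B hB).2.2.2⟩) hcnt.1 sl hsl B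
      (Finset.mem_filter.1 hB).1
    refine this.trans (le_of_eq ?_)
    simp
  refine (Finset.sum_le_sum h1).trans ?_
  rw [← Finset.mul_sum]
  exact mul_le_mul_of_nonneg_left (hcnt.2 T') (by positivity)

theorem card_bad (hMT : S_MT) (hCNT : S_CNT) (hIND : S_IND) (J : ℕ) (hJ : J ≤ Jm n)
    (hq : 16 * (G.maxDegree * G.maxDegree) ≤ 2 ^ J)
    (sl : (Fin n → ℕ) → Option (List (Fin n)))
    (hsl : ∀ χ B, sl χ = some B → B ∈ paths G ∧ Viol χ B) (hn : 1 ≤ n) :
    ((Finset.univ.filter (fun ω : Fin (P2 n) → Bool =>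
      ¬ ((∀ s < M n, ∀ B, lg sl (tab n J ω) s = some B → B.length ≤ 2 * T n) ∧
        ∃ s < M n, lg sl (tab n J ω) s = none))).card : ℝ) * (12 * n) ≤
      5 * (2 : ℝ) ^ (P2 n) := by
  have hn0 : (0 : ℝ) < n := by exact_mod_cast hn
  set b1 := Finset.univ.filter (fun ω : Fin (P2 n) → Bool =>
    ∃ s < M n, ∃ B, lg sl (tab n J ω) s = some B ∧ 2 * T n < B.length) with hb1
  set b2 := Finset.univ.filter (fun ω : Fin (P2 n) → Bool =>
    ∀ s < M n, lg sl (tab n J ω) s ≠ none) with hb2
  have hsub : Finset.univ.filter (fun ω : Fin (P2 n) → Bool =>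
      ¬ ((∀ s < M n, ∀ B, lg sl (tab n J ω) s = some B → B.length ≤ 2 * T n) ∧
        ∃ s < M n, lg sl (tab n J ω) s = none)) ⊆ b1 ∪ b2 := by
    intro ω hω
    rw [Finset.mem_filter] at hω
    rw [Finset.mem_union]
    by_contra h
    push Not at h
    apply hω.2
    constructor
    · intro s hs B hB
      by_contra h3
      exact h.1 (Finset.mem_filter.2 ⟨Finset.mem_univ _, s, hs, B, hB, by omega⟩)
    · by_contra h3
      push Not at h3
      exact h.2 (Finset.mem_filter.2 ⟨Finset.mem_univ _, h3⟩)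
  have h1 : (b1.card : ℝ) ≤ (2 : ℝ) ^ (P2 n) * ((n : ℝ) / (3 * 4 ^ (T n))) := by
    refine le_trans ?_ (sum_lg_le G hMT hCNT hIND J hJ hq sl hsl (T n))
    have e1 : (b1.card : ℝ) = ∑ ω : Fin (P2 n) → Bool, if ω ∈ b1 then (1 : ℝ) else 0 := by
      rw [Finset.sum_boole]
      simp
    rw [e1]
    refine Finset.sum_le_sum fun ω _ => ?_
    split_ifs with h
    · obtain ⟨-, s, hs, B, hB, hl⟩ := Finset.mem_filter.1 h
      have hBm : B ∈ (paths G).filter (fun B => 2 * T n < B.length) :=
        Finset.mem_filter.2 ⟨(hsl _ _ hB).1, hl⟩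
      refine le_trans ?_ (Finset.single_le_sum (f := fun B => (((Finset.range (M n)).filter
        (fun s => lg sl (tab n J ω) s = some B)).card : ℝ)) (fun _ _ => by positivity) hBm)
      have : 1 ≤ ((Finset.range (M n)).filter (fun s => lg sl (tab n J ω) s = some B)).card :=
        Finset.card_pos.2 ⟨s, Finset.mem_filter.2 ⟨Finset.mem_range.2 hs, hB⟩⟩
      exact_mod_cast this
    · exact Finset.sum_nonneg fun _ _ => by positivity
  have h2 : (b2.card : ℝ) * (M n : ℝ) ≤ (2 : ℝ) ^ (P2 n) * ((n : ℝ) / 3) := by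
    have h3 := sum_lg_le G hMT hCNT hIND J hJ hq sl hsl 0
    simp only [pow_zero, mul_one] at h3
    refine le_trans ?_ h3
    have e1 : (b2.card : ℝ) * (M n : ℝ) =
        ∑ ω : Fin (P2 n) → Bool, if ω ∈ b2 then (M n : ℝ) else 0 := by
      rw [← Finset.sum_filter, Finset.sum_const, nsmul_eq_mul]
      simp
    rw [e1]
    refine Finset.sum_le_sum fun ω _ => ?_
    split_ifs with h
    · have h4 := (Finset.mem_filter.1 h).2
      have h5 : ∀ s ∈ Finset.range (M n), (lg sl (tab n J ω) s).getD [] ∈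
          (paths G).filter (fun B => 2 * 0 < B.length) := by
        intro s hs
        cases h6 : lg sl (tab n J ω) s with
        | none => exact absurd h6 (h4 s (Finset.mem_range.1 hs))
        | some B =>
          rw [Option.getD_some, Finset.mem_filter]
          have h7 := (hsl _ _ h6).1
          refine ⟨h7, ?_⟩
          have := List.length_pos_iff.2 ((mem_paths G).1 h7).1
          omega
      have h6 := Finset.card_eq_sum_card_fiberwise h5
      rw [Finset.card_range] at h6
      have h7 : (M n : ℝ) = ∑ B ∈ (paths G).filter (fun B => 2 * 0 < B.length),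
          (((Finset.range (M n)).filter (fun s => (lg sl (tab n J ω) s).getD [] = B)).card : ℝ) := by
        exact_mod_cast h6
      rw [h7]
      refine Finset.sum_le_sum fun B _ => ?_
      have : ((Finset.range (M n)).filter (fun s => (lg sl (tab n J ω) s).getD [] = B)) ⊆
          ((Finset.range (M n)).filter (fun s => lg sl (tab n J ω) s = some B)) := by
        intro s hs
        rw [Finset.mem_filter] at hs ⊢
        refine ⟨hs.1, ?_⟩
        cases h8 : lg sl (tab n J ω) s with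
        | none => exact absurd h8 (h4 s (Finset.mem_range.1 hs.1))
        | some B' =>
          have h9 := hs.2
          rw [h8, Option.getD_some] at h9
          rw [h9]
      exact_mod_cast Finset.card_le_card this
    · exact Finset.sum_nonneg fun _ _ => by positivity
  have hM : (M n : ℝ) = n * n := by unfold M; push_cast; ring
  rw [hM] at h2
  have h4T : (4 * (n * n) : ℝ) ≤ 4 ^ (T n) := by
    have e1 : n < 2 ^ n.size := Nat.lt_size_self n
    have e2 : (n : ℝ) ≤ 2 ^ n.size := by exact_mod_cast e1.le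
    have e3 : (4 : ℝ) ^ (T n) = 4 * (2 ^ n.size * 2 ^ n.size) := by
      unfold T
      rw [pow_succ, mul_comm, ← mul_pow]
      norm_num
    rw [e3]
    have : (n : ℝ) * n ≤ 2 ^ n.size * 2 ^ n.size := by
      apply mul_le_mul e2 e2 hn0.le (by positivity)
    linarith
  have h1' : (b1.card : ℝ) * (12 * n) ≤ (2 : ℝ) ^ (P2 n) := by
    have e1 : (n : ℝ) / (3 * 4 ^ (T n)) ≤ 1 / (12 * n) := by
      rw [div_le_div_iff₀ (by positivity) (by positivity)]
      nlinarith
    have e2 : (b1.card : ℝ) ≤ (2 : ℝ) ^ (P2 n) * (1 / (12 * n)) :=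
      h1.trans (mul_le_mul_of_nonneg_left e1 (by positivity))
    calc (b1.card : ℝ) * (12 * n) ≤ (2 : ℝ) ^ (P2 n) * (1 / (12 * n)) * (12 * n) :=
          mul_le_mul_of_nonneg_right e2 (by positivity)
      _ = (2 : ℝ) ^ (P2 n) := by field_simp
  have h2' : (b2.card : ℝ) * (12 * n) ≤ 4 * (2 : ℝ) ^ (P2 n) := by
    have e1 : ((b2.card : ℝ) * (12 * n)) * n ≤ (4 * (2 : ℝ) ^ (P2 n)) * n := by
      nlinarith
    exact le_of_mul_le_mul_right e1 hn0
  have h3 : ((Finset.univ.filter (fun ω : Fin (P2 n) → Bool =>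
      ¬ ((∀ s < M n, ∀ B, lg sl (tab n J ω) s = some B → B.length ≤ 2 * T n) ∧
        ∃ s < M n, lg sl (tab n J ω) s = none))).card : ℝ) ≤ b1.card + b2.card := by
    exact_mod_cast (Finset.card_le_card hsub).trans (Finset.card_union_le _ _)
  calc _ ≤ ((b1.card : ℝ) + b2.card) * (12 * n) := mul_le_mul_of_nonneg_right h3 (by positivity)
    _ ≤ 5 * (2 : ℝ) ^ (P2 n) := by linarith

end Run

end Pool.Agent.Run7.h412.NR
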