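import Pool.Agent.Run7.h412.NR.FD

/-!
# Assembly, part E: the final theorem from the pieces
-/

set_option autoImplicit false

namespace Pool.Agent.Run7.h412.NR

open Pool.Agent.NPC

namespace Run

open Classical

variable {n : ℕ}

/-- the labels given by the second part of the random string -/
def lb (n : ℕ) {P : ℕ} (r : Fin P → Bool) (ρ : ℕ) (v : Fin n) : ℕ :=
  blk (List.ofFn r) ((ρ * n + v.1) * lam n) (lam n)

theorem lb_lt {P : ℕ} (r : Fin P → Bool) (ρ : ℕ) (v : Fin n) : lb n r ρ v < Lm n := by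
  refine (blk_lt _ _ _).trans_le ?_
  unfold lam Lm
  refine (two_pow_size_le (by unfold T; omega)).trans ?_
  omega

theorem size_zero' : Nat.size 0 = 0 := Nat.size_zero

/-- success on a random string -/
def Good (G : SimpleGraph (Fin n)) [DecidableRel G.Adj] (r : List Bool) : Prop :=
  ∃ c : Fin n → ℕ, alg (adjMatrix G) r = List.ofFn c ∧
    (∀ v, c v < Max.max 1 (32 * G.maxDegree ^ 2)) ∧ Nonrepetitive G c

theorem good_of (hn : 1 ≤ n) (G : SimpleGraph (Fin n)) [DecidableRel G.Adj] (hS : S_SOUND)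
    (hC : S_COMPL) {P : ℕ} (r₁ : Fin P → Bool) (hP : Perfect n (lb n r₁))
    (r₂ : Fin (P2 n) → Bool)
    (h1 : ∀ s < M n, ∀ B, lg (sel' hn G (fun ρ => List.ofFn (lb n r₁ ρ)))
      (tab n (Jb (adjMatrix G)) r₂) s = some B → B.length ≤ 2 * T n)
    (h2 : ∃ s < M n, lg (sel' hn G (fun ρ => List.ofFn (lb n r₁ ρ)))
      (tab n (Jb (adjMatrix G)) r₂) s = none) :
    Good G (List.ofFn r₂ ++ List.ofFn r₁) := by
  have hJ : Jb (adjMatrix G) ≤ Jm n := by
    haveI : Nonempty (Fin n) := ⟨⟨0, hn⟩⟩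
    unfold Jb Jm
    rw [maxDeg_adjMatrix hn]
    apply Nat.size_le_size
    have := G.maxDegree_lt_card_verts
    rw [Fintype.card_fin] at this
    exact Nat.mul_le_mul_left _ (Nat.mul_le_mul this.le this.le)
  have hcol : ∀ (v : Fin n) (i : ℕ), i < N n →
      blk (List.ofFn r₂ ++ List.ofFn r₁) ((v.1 * N n + i) * Jm n) (Jb (adjMatrix G)) =
        tab n (Jb (adjMatrix G)) r₂ v i := by
    intro v i hi
    unfold tab
    apply blk_append_left
    rw [List.length_ofFn]
    unfold P2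
    have e1 : v.1 * N n + i + 1 ≤ n * N n := by
      have : (v.1 + 1) * N n ≤ n * N n := Nat.mul_le_mul_right _ v.2
      rw [add_mul, one_mul] at this
      omega
    have e2 := Nat.mul_le_mul_right (Jm n) e1
    rw [add_mul, one_mul] at e2
    omega
  have hlab : ∀ ρ < Hc n, labs (adjMatrix G) (List.ofFn r₂ ++ List.ofFn r₁) ρ =
      List.ofFn (lb n r₁ ρ) := by
    intro ρ _
    unfold labs lb
    rw [adjMatrix_length, range_map_ofFn]
    congr 1
    funext v
    have := blk_append_right (List.ofFn r₂) (List.ofFn r₁) ((ρ * n + v.1) * lam n) (lam n)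
    rwa [List.length_ofFn] at this
  obtain ⟨c, hc1, hc2, hc3⟩ := alg_good hn G hS hC (lb n r₁) (lb_lt r₁) hP
    (List.ofFn r₂ ++ List.ofFn r₁) (tab n (Jb (adjMatrix G)) r₂) hlab hcol h1 h2
  refine ⟨c, hc1, fun v => ?_, hc2⟩
  obtain ⟨i, -, hi⟩ := hc3 v
  rw [hi]
  refine (blk_lt _ _ _).trans_le ?_
  unfold Jb
  rw [maxDeg_adjMatrix hn]
  rcases Nat.eq_zero_or_pos G.maxDegree with h0 | h0
  · rw [h0]
    simp
  · refine (two_pow_size_le (by positivity)).trans ?_
    refine le_trans (le_of_eq ?_) (le_max_right _ _)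
    ring

theorem card_bad_le (hMT : S_MT) (hCNT : S_CNT) (hIND : S_IND) (hLAB : S_LAB) (hS : S_SOUND)
    (hC : S_COMPL) (hn : 1 ≤ n) (G : SimpleGraph (Fin n)) [DecidableRel G.Adj] {P : ℕ}
    (hP : P1 n ≤ P) :
    (Finset.univ.filter (fun r : Fin (P2 n + P) → Bool => ¬ Good G (List.ofFn r))).card * n ≤
      2 ^ (P2 n + P) := by
  have hJ : Jb (adjMatrix G) ≤ Jm n := by
    haveI : Nonempty (Fin n) := ⟨⟨0, hn⟩⟩
    unfold Jb Jm
    rw [maxDeg_adjMatrix hn]
    apply Nat.size_le_size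
    have := G.maxDegree_lt_card_verts
    rw [Fintype.card_fin] at this
    exact Nat.mul_le_mul_left _ (Nat.mul_le_mul this.le this.le)
  have hq : 16 * (G.maxDegree * G.maxDegree) ≤ 2 ^ Jb (adjMatrix G) := by
    unfold Jb
    rw [maxDeg_adjMatrix hn]
    exact (lt_two_pow_size _).le
  have hn0 : (0 : ℝ) < n := by exact_mod_cast hn
  -- split the random string
  have e1 : (Finset.univ.filter (fun r : Fin (P2 n + P) → Bool => ¬ Good G (List.ofFn r))).card =
      ∑ r₁ : Fin P → Bool, (Finset.univ.filter (fun r₂ : Fin (P2 n) → Bool =>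
        ¬ Good G (List.ofFn r₂ ++ List.ofFn r₁))).card := by
    rw [Finset.card_filter, ← (Fin.appendEquiv (P2 n) P).sum_comp, Fintype.sum_prod_type_right]
    refine Finset.sum_congr rfl fun r₁ _ => ?_
    rw [Finset.card_filter]
    refine Finset.sum_congr rfl fun r₂ _ => ?_
    have : List.ofFn (Fin.appendEquiv (P2 n) P (r₂, r₁)) = List.ofFn r₂ ++ List.ofFn r₁ :=
      List.ofFn_fin_append r₂ r₁
    rw [this]
  have e2 : ∀ r₁ : Fin P → Bool, ((Finset.univ.filter (fun r₂ : Fin (P2 n) → Bool =>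
        ¬ Good G (List.ofFn r₂ ++ List.ofFn r₁))).card : ℝ) * (12 * n) ≤
      5 * (2 : ℝ) ^ (P2 n) + (if ¬ Perfect n (lb n r₁) then 1 else 0) *
        ((2 : ℝ) ^ (P2 n) * (12 * n)) := by
    intro r₁
    by_cases hp : Perfect n (lb n r₁)
    · have h3 := card_bad G hMT hCNT hIND (Jb (adjMatrix G)) hJ hq
        (sel' hn G (fun ρ => List.ofFn (lb n r₁ ρ))) (sel'_sound hn G hS _) hn
      refine le_trans (mul_le_mul_of_nonneg_right ?_ (by positivity)) (h3.trans ?_)
      · have : (Finset.univ.filter (fun r₂ : Fin (P2 n) → Bool =>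
            ¬ Good G (List.ofFn r₂ ++ List.ofFn r₁))) ⊆
            Finset.univ.filter (fun ω : Fin (P2 n) → Bool =>
            ¬ ((∀ s < M n, ∀ B, lg (sel' hn G (fun ρ => List.ofFn (lb n r₁ ρ)))
                (tab n (Jb (adjMatrix G)) ω) s = some B → B.length ≤ 2 * T n) ∧
              ∃ s < M n, lg (sel' hn G (fun ρ => List.ofFn (lb n r₁ ρ)))
                (tab n (Jb (adjMatrix G)) ω) s = none)) := by
          intro ω hω
          rw [Finset.mem_filter] at hω ⊢
          refine ⟨hω.1, fun h4 => hω.2 ?_⟩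
          exact good_of hn G hS hC r₁ hp ω h4.1 h4.2
        exact_mod_cast Finset.card_le_card this
      · rw [if_neg (not_not.2 hp), zero_mul, add_zero]
    · rw [if_pos hp, one_mul]
      have h4 : ((Finset.univ.filter (fun r₂ : Fin (P2 n) → Bool =>
        ¬ Good G (List.ofFn r₂ ++ List.ofFn r₁))).card : ℝ) ≤ 2 ^ (P2 n) := by
        have := Finset.card_filter_le (Finset.univ : Finset (Fin (P2 n) → Bool)) (fun r₂ =>
          ¬ Good G (List.ofFn r₂ ++ List.ofFn r₁))
        have h5 : (Finset.univ : Finset (Fin (P2 n) → Bool)).card = 2 ^ (P2 n) := by simp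
        rw [h5] at this
        exact_mod_cast this
      have := mul_le_mul_of_nonneg_right h4 (show (0 : ℝ) ≤ 12 * n by positivity)
      have h6 : (0 : ℝ) ≤ 5 * 2 ^ (P2 n) := by positivity
      linarith
  have e3 : ((Finset.univ.filter (fun r₁ : Fin P → Bool =>
      ¬ Perfect n (lb n r₁))).card : ℝ) * (3 * n) ≤ 2 ^ P := by
    have := hLAB n P hn hP
    exact_mod_cast this
  have e4 : ((Finset.univ.filter (fun r : Fin (P2 n + P) → Bool =>
      ¬ Good G (List.ofFn r))).card : ℝ) * (12 * n) ≤ 9 * 2 ^ (P2 n + P) := by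
    rw [e1]
    push_cast
    rw [Finset.sum_mul]
    refine (Finset.sum_le_sum fun r₁ _ => e2 r₁).trans ?_
    rw [Finset.sum_add_distrib, Finset.sum_const, nsmul_eq_mul, ← Finset.sum_mul,
      Finset.sum_boole]
    have h7 : ((Finset.univ : Finset (Fin P → Bool)).card : ℝ) = 2 ^ P := by simp
    rw [h7, pow_add]
    have h8 : ((Finset.univ.filter (fun r₁ : Fin P → Bool =>
      ¬ Perfect n (lb n r₁))).card : ℝ) * ((2 : ℝ) ^ (P2 n) * (12 * n)) ≤
        4 * (2 ^ (P2 n) * 2 ^ P) := by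
      have := mul_le_mul_of_nonneg_right e3 (show (0 : ℝ) ≤ 4 * 2 ^ (P2 n) by positivity)
      linarith
    linarith
  have e5 : ((Finset.univ.filter (fun r : Fin (P2 n + P) → Bool =>
      ¬ Good G (List.ofFn r))).card : ℝ) * n ≤ 2 ^ (P2 n + P) := by
    have : (0 : ℝ) ≤ 2 ^ (P2 n + P) := by positivity
    linarith
  exact_mod_cast e5

/-- a typed polynomial-time function is realised by a polynomial-time function on strings -/
theorem realise {α β : Type} [TEnc α] [TEnc β] [TDec α] {f : α → β} (hf : Poly f) :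
    ∃ A : List Bool → List Bool, PolyTime A ∧ ∀ a, A (bits a) = bits (f a) := by
  refine ⟨_, polyTime_opt (Poly.optMap (o := unbits α) (f := fun _ a => f a) poly_unbits
    (hf.comp (Poly.snd Poly.id))), fun a => ?_⟩
  rw [unbits_bits]
  rfl

theorem final (hMT : S_MT) (hCNT : S_CNT) (hIND : S_IND) (hLAB : S_LAB) (hS : S_SOUND)
    (hC : S_COMPL) (hPOLY : S_POLY) :
    ∃ (A : List Bool → List Bool) (p : Polynomial ℕ), PolyTime A ∧
      ∀ (n : ℕ), 1 ≤ n → ∀ (G : SimpleGraph (Fin n)) [DecidableRel G.Adj],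
        (n - 1) * 2 ^ p.eval n ≤ n * (Finset.univ.filter (fun r : Fin (p.eval n) → Bool =>
          ∃ c : Fin n → ℕ, A (bits (adjMatrix G, List.ofFn r)) = bits (List.ofFn c) ∧
            (∀ v, c v < Max.max 1 (32 * G.maxDegree ^ 2)) ∧ Nonrepetitive G c)).card := by
  obtain ⟨A, hA, hAf⟩ := realise hPOLY
  refine ⟨A, pol, hA, fun n hn G _ => ?_⟩
  obtain ⟨P, hP, hP1⟩ : ∃ P, pol.eval n = P2 n + P ∧ P1 n ≤ P :=
    ⟨pol.eval n - P2 n, by have := le_pol n; omega, by have := le_pol n; omega⟩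
  rw [hP]
  have h1 := card_bad_le hMT hCNT hIND hLAB hS hC hn G hP1
  have h2 : (Finset.univ.filter (fun r : Fin (P2 n + P) → Bool => Good G (List.ofFn r))) ⊆
      (Finset.univ.filter (fun r : Fin (P2 n + P) → Bool =>
          ∃ c : Fin n → ℕ, A (bits (adjMatrix G, List.ofFn r)) = bits (List.ofFn c) ∧
            (∀ v, c v < Max.max 1 (32 * G.maxDegree ^ 2)) ∧ Nonrepetitive G c)) := by
    intro r hr
    rw [Finset.mem_filter] at hr ⊢
    obtain ⟨c, h3, h4, h5⟩ := hr.2
    refine ⟨hr.1, c, ?_, h4, h5⟩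
    rw [hAf, h3]
  have h3 := Finset.card_le_card h2
  have h4 := Finset.card_filter_add_card_filter_not (s := (Finset.univ : Finset (Fin (P2 n + P) → Bool)))
    (fun r => Good G (List.ofFn r))
  have h5 : (Finset.univ : Finset (Fin (P2 n + P) → Bool)).card = 2 ^ (P2 n + P) := by simp
  rw [h5] at h4
  obtain ⟨k, rfl⟩ : ∃ k, n = k + 1 := ⟨n - 1, by omega⟩
  simp only [Nat.add_sub_cancel]
  nlinarith

end Run

end Pool.Agent.Run7.h412.NR
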