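import Pool.Agent.Run7.h412.NR.Defs

/-!
# Moser-Tardos: the heap of a step, processed backwards
-/

set_option autoImplicit false

namespace Pool.Agent.Run7.h412.NR

namespace MT

variable {V : Type} [DecidableEq V]

/-- the list processed at stage `k`, when the root is step `s` -/
def Bk (lg : ℕ → Option (List V)) (s k : ℕ) : List V := (lg (s - 1 - k)).getD []

/-- heights after `k` stages -/
def ht (lg : ℕ → Option (List V)) (s : ℕ) (A : List V) : ℕ → V → ℕ
  | 0 => fun v => if v ∈ A then 1 else 0
  | k + 1 => fun v =>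
      if v ∈ Bk lg s k ∧ 0 < (Bk lg s k).toFinset.sup (ht lg s A k) then
        (Bk lg s k).toFinset.sup (ht lg s A k) + 1 else ht lg s A k v

/-- depth of the list of stage `k` (`0`: irrelevant) -/
def dp (lg : ℕ → Option (List V)) (s : ℕ) (A : List V) (k : ℕ) : ℕ :=
  (Bk lg s k).toFinset.sup (ht lg s A k)

/-- number of steps before `s` containing `v` -/
def cn (lg : ℕ → Option (List V)) (s : ℕ) (v : V) : ℕ :=
  ((Finset.range s).filter (fun j => v ∈ (lg j).getD [])).card

variable (lg : ℕ → Option (List V)) (s : ℕ) (A : List V)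

theorem ht_zero (v : V) : ht lg s A 0 v = if v ∈ A then 1 else 0 := rfl

theorem ht_succ (k : ℕ) (v : V) : ht lg s A (k + 1) v =
    if v ∈ Bk lg s k ∧ 0 < dp lg s A k then dp lg s A k + 1 else ht lg s A k v := rfl

theorem ht_le_dp {k : ℕ} {v : V} (h : v ∈ Bk lg s k) : ht lg s A k v ≤ dp lg s A k :=
  Finset.le_sup (f := ht lg s A k) (List.mem_toFinset.2 h)

theorem ht_le_succ (k : ℕ) (v : V) : ht lg s A k v ≤ ht lg s A (k + 1) v := by
  rw [ht_succ]
  split_ifs with h
  · exact (ht_le_dp lg s A h.1).trans (Nat.le_succ _)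
  · exact le_rfl

theorem ht_mono {k k' : ℕ} (h : k ≤ k') (v : V) : ht lg s A k v ≤ ht lg s A k' v := by
  induction k', h using Nat.le_induction with
  | base => exact le_rfl
  | succ n _ ih => exact ih.trans (ht_le_succ lg s A n v)

theorem dp_lt_ht {k' k : ℕ} (h : k' < k) {v : V} (hv : v ∈ Bk lg s k')
    (hd : 0 < dp lg s A k') : dp lg s A k' + 1 ≤ ht lg s A k v := by
  refine le_trans ?_ (ht_mono lg s A h v)
  rw [ht_succ, if_pos ⟨hv, hd⟩]

theorem exists_of_ht {k : ℕ} {v : V} {d : ℕ} (hd : 1 ≤ d) (h : ht lg s A k v = d + 1) :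
    ∃ k' < k, dp lg s A k' = d ∧ v ∈ Bk lg s k' := by
  induction k with
  | zero =>
    rw [ht_zero] at h
    split_ifs at h <;> omega
  | succ k ih =>
    rw [ht_succ] at h
    split_ifs at h with h1
    · exact ⟨k, Nat.lt_succ_self _, by omega, h1.1⟩
    · obtain ⟨k', h1, h2⟩ := ih h
      exact ⟨k', by omega, h2⟩

theorem mem_of_ht_one {k : ℕ} {v : V} (h : ht lg s A k v = 1) : v ∈ A := by
  induction k with
  | zero =>
    rw [ht_zero] at h
    split_ifs at h with h1
    exact h1
  | succ k ih =>
    rw [ht_succ] at h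
    split_ifs at h with h1
    · omega
    · exact ih h

theorem ht_pos_of_mem {k : ℕ} {v : V} (h : v ∈ A) : 0 < ht lg s A k v := by
  refine lt_of_lt_of_le ?_ (ht_mono lg s A (Nat.zero_le k) v)
  rw [ht_zero, if_pos h]
  exact one_pos

theorem ht_le (k : ℕ) (v : V) : ht lg s A k v ≤ k + 1 := by
  induction k generalizing v with
  | zero => rw [ht_zero]; split_ifs <;> omega
  | succ k ih =>
    rw [ht_succ]
    split_ifs
    · have : dp lg s A k ≤ k + 1 := Finset.sup_le fun b _ => ih b
      omega
    · exact (ih v).trans (by omega)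

theorem dp_le (k : ℕ) : dp lg s A k ≤ k + 1 := Finset.sup_le fun b _ => ht_le lg s A k b

theorem stage_unique {k k' : ℕ} (h : dp lg s A k = dp lg s A k') (hd : 0 < dp lg s A k)
    {x : V} (hx : x ∈ Bk lg s k) (hx' : x ∈ Bk lg s k') : k = k' := by
  rcases lt_trichotomy k k' with h1 | h1 | h1
  · have h2 := dp_lt_ht lg s A h1 hx hd
    have h3 := ht_le_dp lg s A hx'
    omega
  · exact h1
  · have h2 := dp_lt_ht lg s A h1 hx' (h ▸ hd)
    have h3 := ht_le_dp lg s A hx
    omega

/-- a vertex attaining the depth -/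
theorem exists_vk {k : ℕ} (hd : 0 < dp lg s A k) :
    ∃ v ∈ Bk lg s k, ht lg s A k v = dp lg s A k := by
  have hne : (Bk lg s k).toFinset.Nonempty := by
    rw [Finset.nonempty_iff_ne_empty]
    intro h
    unfold dp at hd
    rw [h] at hd
    simp at hd
  obtain ⟨v, hv, h⟩ := Finset.exists_mem_eq_sup (Bk lg s k).toFinset hne (ht lg s A k)
  exact ⟨v, List.mem_toFinset.1 hv, h.symm⟩

theorem cn_succ (j : ℕ) (v : V) :
    cn lg (j + 1) v = cn lg j v + if v ∈ (lg j).getD [] then 1 else 0 := by
  unfold cn
  rw [Finset.range_add_one, Finset.filter_insert]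
  split_ifs with h
  · rw [Finset.card_insert_of_notMem (by simp)]
  · rfl

/-- layer `m ≥ 1` of the heap contains `x` -/
def Lay (m : ℕ) (x : V) : Prop := ∃ k < s, dp lg s A k = m ∧ x ∈ Bk lg s k

open Classical in
theorem count_key (D : ℕ) (hD : s < D) : ∀ k ≤ s, ∀ x, 0 < ht lg s A k x →
    cn lg (s - k) x =
      ((Finset.range D).filter (fun m => ht lg s A k x ≤ m ∧ Lay lg s A m x)).card := by
  intro k hk
  -- downward induction
  obtain ⟨j, rfl⟩ : ∃ j, k = s - j := ⟨s - k, by omega⟩
  clear hk
  induction j with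
  | zero =>
    intro x hx
    simp only [Nat.sub_zero, Nat.sub_self] at hx ⊢
    have h1 : cn lg 0 x = 0 := by simp [cn]
    rw [h1, eq_comm, Finset.card_eq_zero, Finset.filter_eq_empty_iff]
    rintro m - ⟨h2, k', hk', h3, h4⟩
    have h5 : 0 < dp lg s A k' := by omega
    have := dp_lt_ht lg s A hk' h4 h5
    omega
  | succ j ih =>
    intro x hx
    by_cases hj : s ≤ j
    · have e : s - (j + 1) = s - j := by omega
      rw [e] at hx ⊢
      exact ih x hx
    push Not at hj
    obtain ⟨k, hk⟩ : ∃ k, k = s - (j + 1) := ⟨_, rfl⟩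
    have hk1 : s - j = k + 1 := by omega
    have hks : k < s := by omega
    rw [← hk] at hx ⊢
    rw [hk1] at ih
    have hsk : s - k = (s - (k + 1)) + 1 := by omega
    rw [hsk, cn_succ]
    have hB : (lg (s - (k + 1))).getD [] = Bk lg s k := by
      unfold Bk
      congr 2
      omega
    rw [hB]
    have hx' : 0 < ht lg s A (k + 1) x := lt_of_lt_of_le hx (ht_le_succ lg s A k x)
    rw [ih x hx']
    by_cases hxB : x ∈ Bk lg s k
    · rw [if_pos hxB]
      have hd : 0 < dp lg s A k := lt_of_lt_of_le hx (ht_le_dp lg s A hxB)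
      have hh : ht lg s A (k + 1) x = dp lg s A k + 1 := by rw [ht_succ, if_pos ⟨hxB, hd⟩]
      have hle := ht_le_dp lg s A hxB
      have : (Finset.range D).filter (fun m => ht lg s A k x ≤ m ∧ Lay lg s A m x) =
          insert (dp lg s A k)
            ((Finset.range D).filter (fun m => ht lg s A (k + 1) x ≤ m ∧ Lay lg s A m x)) := by
        ext m
        simp only [Finset.mem_filter, Finset.mem_range, Finset.mem_insert]
        constructor
        · rintro ⟨h1, h2, h3⟩
          by_cases hm : ht lg s A (k + 1) x ≤ m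
          · exact Or.inr ⟨h1, hm, h3⟩
          · left
            obtain ⟨k', hk', h4, h5⟩ := h3
            rcases lt_trichotomy k' k with h6 | h6 | h6
            · have := dp_lt_ht lg s A h6 h5 (by omega)
              omega
            · rw [← h4, h6]
            · have h7 := dp_lt_ht lg s A h6 hxB hd
              have h8 := ht_le_dp lg s A h5
              omega
        · rintro (h1 | ⟨h1, h2, h3⟩)
          · subst h1
            refine ⟨?_, hle, k, hks, rfl, hxB⟩
            have := dp_le lg s A k
            omega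
          · exact ⟨h1, (ht_le_succ lg s A k x).trans h2, h3⟩
      rw [this, Finset.card_insert_of_notMem]
      simp only [Finset.mem_filter, not_and]
      intro _ h1
      omega
    · rw [if_neg hxB]
      have hh : ht lg s A (k + 1) x = ht lg s A k x := by
        rw [ht_succ, if_neg (fun h => hxB h.1)]
      rw [hh, add_zero]

end MT

end Pool.Agent.Run7.h412.NR
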