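import Pool.Agent.Run7.h412.NR.MTa

/-!
# Moser-Tardos: codes of heaps, and the probability of the equalities given by a code
-/

set_option autoImplicit false

namespace Pool.Agent.Run7.h412.NR

namespace MT

variable {V : Type} [DecidableEq V] {E : Finset (List V)} {D : ℕ}

/-- codes of heaps: layer `i + 1` assigns to some vertices a list -/
abbrev Code (V : Type) (E : Finset (List V)) (D : ℕ) : Type :=
  Fin D → V → Option {B : List V // B ∈ E}

/-- the vertex `x` belongs to a list in the layer `m` (`m ≥ 1`) -/
def lay (g : Code V E D) (m : ℕ) (x : V) : Prop :=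
  ∃ (i : Fin D) (u : V) (B : {B : List V // B ∈ E}), i.1 + 1 = m ∧ g i u = some B ∧ x ∈ B.1

open Classical in
/-- number of layers deeper than `d` containing `x` -/
noncomputable def idx (g : Code V E D) (d : ℕ) (x : V) : ℕ :=
  ((Finset.range (D + 1)).filter (fun m => d < m ∧ lay g m x)).card

/-- the lists of a code, with the root -/
def ev (A : List V) (g : Code V E D) : Option (Fin D × V) → List V
  | none => A
  | some p => match g p.1 p.2 with
    | none => []
    | some B => B.1

def dep : Option (Fin D × V) → ℕ
  | none => 0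
  | some p => p.1.1 + 1

/-- different lists of the same layer are disjoint -/
def Proper (g : Code V E D) : Prop :=
  ∀ (i : Fin D) (u u' : V) (B B' : {B : List V // B ∈ E}), g i u = some B → g i u' = some B' →
    u ≠ u' → ∀ x ∈ B.1, x ∉ B'.1

/-- the equalities given by a code -/
def Eqs {Γ : Type} (X : V → ℕ → Γ) (A : List V) (g : Code V E D) : Prop :=
  ∀ o, Viol (fun x => X x (idx g (dep o) x)) (ev A g o)

theorem Indep.family {Γ Ω : Type} [Fintype Ω] [DecidableEq Γ] {X : Ω → V → ℕ → Γ} {N q : ℕ}
    (h : Indep X N q) {ι : Type} [Fintype ι] (a b : ι → V × ℕ) (ha : ∀ i, (a i).2 < N)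
    (hb : ∀ i, (b i).2 < N) (hinj : Function.Injective (Sum.elim a b)) :
    (Finset.univ.filter (fun ω : Ω => ∀ i, X ω (a i).1 (a i).2 = X ω (b i).1 (b i).2)).card *
      q ^ Fintype.card ι ≤ Fintype.card Ω := by
  classical
  have hab : Function.Injective (fun i => (a i, b i)) := by
    intro i j hij
    have := congrArg Prod.fst hij
    have := @hinj (Sum.inl i) (Sum.inl j) this
    exact Sum.inl_injective this
  have := h (Finset.univ.image (fun i => (a i, b i))) ?_ ?_ ?_ ?_
  · rw [Finset.card_image_of_injective _ hab, Finset.card_univ] at this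
    convert! this using 3
    congr 1
    ext ω
    simp
  · intro x hx
    obtain ⟨i, -, rfl⟩ := Finset.mem_image.1 hx
    exact ⟨ha i, hb i⟩
  · intro x hx y hy hxy
    obtain ⟨i, -, rfl⟩ := Finset.mem_image.1 hx
    obtain ⟨j, -, rfl⟩ := Finset.mem_image.1 hy
    have := @hinj (Sum.inl i) (Sum.inl j) hxy
    rw [Sum.inl_injective this]
  · intro x hx y hy hxy
    obtain ⟨i, -, rfl⟩ := Finset.mem_image.1 hx
    obtain ⟨j, -, rfl⟩ := Finset.mem_image.1 hy
    have := @hinj (Sum.inl i) (Sum.inr j) hxy
    cases this
  · intro x hx y hy hxy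
    obtain ⟨i, -, rfl⟩ := Finset.mem_image.1 hx
    obtain ⟨j, -, rfl⟩ := Finset.mem_image.1 hy
    have := @hinj (Sum.inr i) (Sum.inr j) hxy
    rw [Sum.inr_injective this]

theorem idx_lt {g : Code V E D} {d d' : ℕ} {x : V} (h : d < d') (hd' : d' < D + 1)
    (hx : lay g d' x) : idx g d' x < idx g d x := by
  classical
  unfold idx
  apply Finset.card_lt_card
  rw [Finset.ssubset_iff_of_subset]
  · refine ⟨d', ?_, ?_⟩
    · simp only [Finset.mem_filter, Finset.mem_range]
      exact ⟨hd', h, hx⟩
    · simp
  · intro m hm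
    simp only [Finset.mem_filter, Finset.mem_range] at hm ⊢
    exact ⟨hm.1, by omega, hm.2.2⟩

theorem idx_le (g : Code V E D) (d : ℕ) (x : V) : idx g d x ≤ D := by
  classical
  unfold idx
  have : (Finset.range (D + 1)).filter (fun m => d < m ∧ lay g m x) ⊆
      (Finset.range (D + 1)).erase 0 := by
    intro m hm
    simp only [Finset.mem_filter, Finset.mem_range, Finset.mem_erase] at hm ⊢
    omega
  refine (Finset.card_le_card this).trans ?_
  simp

theorem lay_ev {A : List V} {g : Code V E D} {o : Option (Fin D × V)} {x : V}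
    (hx : x ∈ ev A g o) (ho : dep o ≠ 0) : dep o < D + 1 ∧ lay g (dep o) x := by
  cases o with
  | none => simp [dep] at ho
  | some p =>
    refine ⟨by simp only [dep]; have := p.1.2; omega, p.1, p.2, ?_⟩
    simp only [ev] at hx
    cases hg : g p.1 p.2 with
    | none => rw [hg] at hx; simp at hx
    | some B => rw [hg] at hx; exact ⟨B, rfl, rfl, hx⟩

theorem ev_disjoint {A : List V} {g : Code V E D} (hg : Proper g) {o o' : Option (Fin D × V)}
    (hd : dep o = dep o') {x : V} (hx : x ∈ ev A g o) (hx' : x ∈ ev A g o') : o = o' := by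
  cases o with
  | none =>
    cases o' with
    | none => rfl
    | some p => simp [dep] at hd
  | some p =>
    cases o' with
    | none => simp [dep] at hd
    | some p' =>
      obtain ⟨i, u⟩ := p
      obtain ⟨i', u'⟩ := p'
      simp only [dep, add_left_inj] at hd
      obtain rfl := Fin.ext hd
      by_cases hu : u = u'
      · rw [hu]
      · exfalso
        simp only [ev] at hx hx'
        cases h1 : g i u with
        | none => rw [h1] at hx; simp at hx
        | some B =>
          cases h2 : g i u' with
          | none => rw [h2] at hx'; simp at hx'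
          | some B' =>
            rw [h1] at hx; rw [h2] at hx'
            exact hg i u u' B B' h1 h2 hu x hx hx'

theorem entry_inj {A : List V} {g : Code V E D} (hg : Proper g) {o o' : Option (Fin D × V)}
    {x : V} (hx : x ∈ ev A g o) (hx' : x ∈ ev A g o')
    (h : idx g (dep o) x = idx g (dep o') x) : o = o' := by
  rcases lt_trichotomy (dep o) (dep o') with h1 | h1 | h1
  · obtain ⟨h2, h3⟩ := lay_ev hx' (by omega)
    have := idx_lt h1 h2 h3
    omega
  · exact ev_disjoint hg h1 hx hx'
  · obtain ⟨h2, h3⟩ := lay_ev hx (by omega)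
    have := idx_lt h1 h2 h3
    omega

theorem card_eqs {Γ Ω : Type} [Fintype Ω] [DecidableEq Γ] [Fintype V] {X : Ω → V → ℕ → Γ}
    {N q : ℕ} (h : Indep X N q) (hD : D < N) (A : List V) (g : Code V E D) (hg : Proper g)
    (hA : A.Nodup ∧ Even A.length) (hE : ∀ B ∈ E, B.Nodup ∧ Even B.length)
    [DecidablePred (fun ω => Eqs (X ω) A g)] :
    (Finset.univ.filter (fun ω : Ω => Eqs (X ω) A g)).card *
      q ^ (∑ o, (ev A g o).length / 2) ≤ Fintype.card Ω := by
  classical
  have hev : ∀ o, (ev A g o).Nodup ∧ Even (ev A g o).length := by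
    intro o
    cases o with
    | none => exact hA
    | some p =>
      simp only [ev]
      cases g p.1 p.2 with
      | none => simp
      | some B => exact hE B.1 B.2
  have hlen : ∀ o, (ev A g o).length = 2 * ((ev A g o).length / 2) := by
    intro o
    obtain ⟨c, hc⟩ := (hev o).2
    omega
  let ι := (o : Option (Fin D × V)) × Fin ((ev A g o).length / 2)
  let a : ι → V × ℕ := fun i =>
    ((ev A g i.1)[i.2.1]'(by have := hlen i.1; have := i.2.2; omega),
      idx g (dep i.1) ((ev A g i.1)[i.2.1]'(by have := hlen i.1; have := i.2.2; omega)))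
  let b : ι → V × ℕ := fun i =>
    ((ev A g i.1)[(ev A g i.1).length / 2 + i.2.1]'(by
        have := hlen i.1; have := i.2.2; omega),
      idx g (dep i.1) ((ev A g i.1)[(ev A g i.1).length / 2 + i.2.1]'(by
        have := hlen i.1; have := i.2.2; omega)))
  have key := Indep.family h (ι := ι) a b (fun i => (idx_le _ _ _).trans_lt hD)
    (fun i => (idx_le _ _ _).trans_lt hD) ?_
  · have hc : Fintype.card ι = ∑ o, (ev A g o).length / 2 := by
      rw [Fintype.card_sigma]
      simp
    rw [hc] at key
    refine le_trans (Nat.mul_le_mul_right _ (Finset.card_le_card ?_)) key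
    intro ω hω
    rw [Finset.mem_filter] at hω ⊢
    refine ⟨hω.1, ?_⟩
    rintro ⟨o, i, hi⟩
    have h1 := hω.2 o
    unfold Viol at h1
    have h2 := hlen o
    have h3 := congrArg (fun l => l[i]?) h1
    simp only [List.getElem?_map, List.getElem?_drop] at h3
    rw [List.getElem?_take_of_lt hi, List.getElem?_eq_getElem (by omega),
      List.getElem?_eq_getElem (by omega)] at h3
    simp only [Option.map_some, Option.some.injEq] at h3
    exact h3
  · -- all entries are distinct
    have pos : ∀ (o o' : Option (Fin D × V)) (j j' : ℕ) (hj : j < (ev A g o).length)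
        (hj' : j' < (ev A g o').length),
        ((ev A g o)[j], idx g (dep o) (ev A g o)[j]) =
          ((ev A g o')[j'], idx g (dep o') (ev A g o')[j']) → o = o' ∧ j = j' := by
      intro o o' j j' hj hj' he
      have e1 : (ev A g o)[j] = (ev A g o')[j'] := congrArg Prod.fst he
      have e2 : idx g (dep o) (ev A g o)[j] = idx g (dep o') (ev A g o')[j'] :=
        congrArg Prod.snd he
      have m1 : (ev A g o)[j] ∈ ev A g o := List.getElem_mem _
      have m2 : (ev A g o)[j] ∈ ev A g o' := by rw [e1]; exact List.getElem_mem _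
      have e3 : o = o' := entry_inj hg m1 m2 (by rw [e2, e1])
      subst e3
      exact ⟨rfl, (List.Nodup.getElem_inj_iff (hev o).1).1 e1⟩
    rintro (⟨o, i, hi⟩ | ⟨o, i, hi⟩) (⟨o', i', hi'⟩ | ⟨o', i', hi'⟩) he
    · obtain ⟨h1, h2⟩ := pos o o' i i' _ _ he
      subst h1; subst h2; rfl
    · obtain ⟨h1, h2⟩ := pos o o' i _ _ _ he
      subst h1
      simp only at h2 hi hi'
      omega
    · obtain ⟨h1, h2⟩ := pos o o' _ i' _ _ he
      subst h1
      simp only at h2 hi hi'
      omega
    · obtain ⟨h1, h2⟩ := pos o o' _ _ _ _ he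
      subst h1
      simp only at h2 hi hi'
      have : i = i' := by omega
      subst this
      rfl

end MT

end Pool.Agent.Run7.h412.NR
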