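import Pool.Agent.Run7.h412.NR.MTb

/-!
# Moser-Tardos: the total weight of the codes
-/

set_option autoImplicit false

namespace Pool.Agent.Run7.h412.NR

namespace MT

open Classical

variable {V : Type} [DecidableEq V] [Fintype V] {E : Finset (List V)} {D : ℕ}

/-- validity: each list is attached to one of its vertices, which lies in the previous layer -/
def Valid (U : Finset V) (g : Code V E D) : Prop :=
  ∀ (i : Fin D) (u : V) (B : {B : List V // B ∈ E}), g i u = some B →
    u ∈ B.1 ∧ (if i.1 = 0 then u ∈ U else lay g i.1 u)

/-- the layer of a single function -/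
noncomputable def nxt (γ : V → Option {B : List V // B ∈ E}) : Finset V :=
  Finset.univ.filter (fun x => ∃ u B, γ u = some B ∧ x ∈ B.1)

theorem lay_cons_one (γ : V → Option {B : List V // B ∈ E}) (g : Code V E D) (x : V) :
    lay (Fin.cons γ g : Code V E (D + 1)) 1 x ↔ x ∈ nxt γ := by
  unfold lay nxt
  rw [Finset.mem_filter]
  constructor
  · rintro ⟨i, u, B, hi, h1, h2⟩
    obtain rfl : i = 0 := Fin.ext (by simpa using hi)
    exact ⟨Finset.mem_univ _, u, B, h1, h2⟩
  · rintro ⟨-, u, B, h1, h2⟩
    exact ⟨0, u, B, rfl, h1, h2⟩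

theorem lay_cons_succ (γ : V → Option {B : List V // B ∈ E}) (g : Code V E D) (m : ℕ) (hm : m ≠ 0)
    (x : V) : lay (Fin.cons γ g : Code V E (D + 1)) (m + 1) x ↔ lay g m x := by
  unfold lay
  constructor
  · rintro ⟨i, u, B, hi, h1, h2⟩
    have hi0 : i ≠ 0 := by
      rintro rfl
      simp at hi
      omega
    obtain ⟨j, rfl⟩ := Fin.exists_succ_eq.2 hi0
    refine ⟨j, u, B, by simpa using hi, ?_, h2⟩
    simpa using h1
  · rintro ⟨j, u, B, hj, h1, h2⟩
    exact ⟨j.succ, u, B, by simpa using hj, by simpa using h1, h2⟩

theorem valid_cons {U : Finset V} {γ : V → Option {B : List V // B ∈ E}} {g : Code V E D}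
    (h : Valid U (Fin.cons γ g : Code V E (D + 1))) :
    (∀ u B, γ u = some B → u ∈ B.1 ∧ u ∈ U) ∧ Valid (nxt γ) g := by
  constructor
  · intro u B hB
    have := h 0 u B hB
    simpa using this
  · intro i u B hB
    have := h i.succ u B (by simpa using hB)
    refine ⟨this.1, ?_⟩
    have h2 := this.2
    simp only [Fin.val_succ, Nat.succ_ne_zero, if_false] at h2
    split_ifs with hi
    · rw [hi] at h2
      exact (lay_cons_one γ g u).1 h2
    · exact (lay_cons_succ γ g i.1 hi u).1 h2

/-- weights -/
noncomputable def wt (q : ℝ) (o : Option {B : List V // B ∈ E}) : ℝ :=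
  match o with
  | none => 1
  | some B => (1 / q) ^ (B.1.length / 2)

/-- length of an optional list -/
def olen (o : Option {B : List V // B ∈ E}) : ℕ :=
  match o with
  | none => 0
  | some B => B.1.length

theorem card_nxt_le (γ : V → Option {B : List V // B ∈ E}) :
    (nxt γ).card ≤ ∑ u, olen (γ u) := by
  have h1 : nxt γ ⊆ Finset.univ.biUnion (fun u => (match γ u with
      | none => ([] : List V)
      | some B => B.1).toFinset) := by
    intro x hx
    obtain ⟨-, u, B, h1, h2⟩ := Finset.mem_filter.1 hx
    rw [Finset.mem_biUnion]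
    refine ⟨u, Finset.mem_univ _, ?_⟩
    rw [h1]
    exact List.mem_toFinset.2 h2
  refine (Finset.card_le_card h1).trans (Finset.card_biUnion_le.trans ?_)
  refine Finset.sum_le_sum fun u _ => ?_
  refine (List.toFinset_card_le _).trans ?_
  unfold olen
  cases γ u <;> simp

theorem wt_nonneg {q : ℝ} (hq : 0 < q) (o : Option {B : List V // B ∈ E}) : 0 ≤ wt q o := by
  unfold wt
  cases o with
  | none => exact zero_le_one
  | some B => positivity

theorem code_sum {q : ℝ} (hq : 0 < q) (hE : ∀ B ∈ E, Even B.length)
    (hw : ∀ v, ∑ B ∈ E.filter (fun B => v ∈ B), ((4 : ℝ) / q) ^ (B.length / 2) ≤ 1) :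
    ∀ (D : ℕ) (U : Finset V), ∑ g : Code V E D, (if Valid U g then ∏ i, ∏ u, wt q (g i u) else 0) ≤
      2 ^ U.card := by
  intro D
  induction D with
  | zero =>
    intro U
    have : ∀ g : Code V E 0, (if Valid U g then ∏ i, ∏ u, wt q (g i u) else 0) ≤ 1 := by
      intro g
      split_ifs
      · simp
      · exact zero_le_one
    refine (Finset.sum_le_sum fun g _ => this g).trans ?_
    simp only [Finset.sum_const, Finset.card_univ, nsmul_eq_mul, mul_one]
    have h1 : Fintype.card (Code V E 0) = 1 := by simp [Code]
    rw [h1]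
    exact_mod_cast Nat.one_le_two_pow
  | succ D ih =>
    intro U
    -- auxiliary function
    let f : V → Option {B : List V // B ∈ E} → ℝ := fun u o =>
      match o with
      | none => 1
      | some B => if u ∈ B.1 ∧ u ∈ U then (1 / q) ^ (B.1.length / 2) * 2 ^ B.1.length else 0
    have hf0 : ∀ u o, 0 ≤ f u o := by
      intro u o
      cases o with
      | none => exact zero_le_one
      | some B =>
        simp only [f]
        split_ifs
        · positivity
        · exact le_rfl
    have hfw : ∀ u o, (∀ B, o = some B → u ∈ B.1 ∧ u ∈ U) → f u o = wt q o * 2 ^ olen o := by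
      intro u o h
      cases o with
      | none => simp [f, wt, olen]
      | some B =>
        simp only [f, wt, olen]
        rw [if_pos (h B rfl)]
    have hsumf : ∀ u, ∑ o, f u o ≤ if u ∈ U then 2 else 1 := by
      intro u
      rw [Fintype.sum_option]
      by_cases hu : u ∈ U
      · rw [if_pos hu]
        have : ∑ B : {B : List V // B ∈ E}, f u (some B) =
            ∑ B ∈ E.filter (fun B => u ∈ B), ((4 : ℝ) / q) ^ (B.length / 2) := by
          rw [Finset.sum_filter, ← Finset.sum_coe_sort E
            (fun B => if u ∈ B then ((4 : ℝ) / q) ^ (B.length / 2) else 0)]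
          refine Finset.sum_congr rfl fun B _ => ?_
          simp only [f, hu, and_true]
          split_ifs
          · obtain ⟨c, hc⟩ := hE B.1 B.2
            have e1 : B.1.length / 2 = c := by omega
            have e2 : B.1.length = 2 * c := by omega
            rw [e1, e2, pow_mul, ← mul_pow]
            congr 1
            norm_num
            ring
          · rfl
        rw [this]
        have := hw u
        simp only [f]
        linarith
      · rw [if_neg hu]
        have : ∀ B : {B : List V // B ∈ E}, f u (some B) = 0 := by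
          intro B
          simp only [f, hu, and_false, if_false]
        simp only [this, Finset.sum_const_zero, add_zero, f, le_refl]
    have hprod : ∑ γ : V → Option {B : List V // B ∈ E}, ∏ u, f u (γ u) ≤ 2 ^ U.card := by
      have h1 := Finset.prod_univ_sum (fun _ : V => (Finset.univ :
        Finset (Option {B : List V // B ∈ E}))) f
      rw [Fintype.piFinset_univ] at h1
      rw [← h1]
      refine (Finset.prod_le_prod (fun u _ => Finset.sum_nonneg fun o _ => hf0 u o)
        (fun u _ => hsumf u)).trans ?_
      rw [Finset.prod_ite_mem, Finset.univ_inter, Finset.prod_const]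
    refine le_trans ?_ hprod
    rw [← (Fin.consEquiv (fun _ : Fin (D + 1) => V → Option {B : List V // B ∈ E})).sum_comp,
      Fintype.sum_prod_type]
    refine Finset.sum_le_sum fun γ _ => ?_
    by_cases hγ : ∀ u B, γ u = some B → u ∈ B.1 ∧ u ∈ U
    · have e1 : ∀ g : Code V E D, (if Valid U (Fin.consEquiv
          (fun _ : Fin (D + 1) => V → Option {B : List V // B ∈ E}) (γ, g)) then
          ∏ i, ∏ u, wt q (Fin.consEquiv
          (fun _ : Fin (D + 1) => V → Option {B : List V // B ∈ E}) (γ, g) i u) else 0) ≤
          (∏ u, wt q (γ u)) * (if Valid (nxt γ) g then ∏ i, ∏ u, wt q (g i u) else 0) := by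
        intro g
        have hc : Fin.consEquiv (fun _ : Fin (D + 1) => V → Option {B : List V // B ∈ E}) (γ, g) =
          (Fin.cons γ g : Code V E (D + 1)) := rfl
        rw [hc]
        split_ifs with h1 h2 h2
        · rw [Fin.prod_univ_succ]
          simp
        · exact absurd (valid_cons h1).2 h2
        · exact mul_nonneg (Finset.prod_nonneg fun u _ => wt_nonneg hq _)
            (Finset.prod_nonneg fun i _ => Finset.prod_nonneg fun u _ => wt_nonneg hq _)
        · simp
      refine (Finset.sum_le_sum fun g _ => e1 g).trans ?_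
      rw [← Finset.mul_sum]
      refine (mul_le_mul_of_nonneg_left (ih (nxt γ)) (Finset.prod_nonneg fun u _ =>
        wt_nonneg hq _)).trans ?_
      have e2 : ∏ u, f u (γ u) = (∏ u, wt q (γ u)) * 2 ^ (∑ u, olen (γ u)) := by
        rw [← Finset.prod_pow_eq_pow_sum, ← Finset.prod_mul_distrib]
        exact Finset.prod_congr rfl fun u _ => hfw u (γ u) (hγ u)
      rw [e2]
      refine mul_le_mul_of_nonneg_left ?_ (Finset.prod_nonneg fun u _ => wt_nonneg hq _)
      exact pow_le_pow_right₀ (by norm_num) (card_nxt_le γ)
    · have e1 : ∀ g : Code V E D, (if Valid U (Fin.consEquiv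
          (fun _ : Fin (D + 1) => V → Option {B : List V // B ∈ E}) (γ, g)) then
          ∏ i, ∏ u, wt q (Fin.consEquiv
          (fun _ : Fin (D + 1) => V → Option {B : List V // B ∈ E}) (γ, g) i u) else 0) = 0 := by
        intro g
        rw [if_neg]
        intro h
        exact hγ (valid_cons (γ := γ) (g := g) h).1
      rw [Finset.sum_congr rfl fun g _ => e1 g, Finset.sum_const_zero]
      exact Finset.prod_nonneg fun u _ => hf0 u _

end MT

end Pool.Agent.Run7.h412.NR
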